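import Pool.Agent.Helper95.MQ.Roc

/-!
# The example `h(x, y) = 2 x⁺ y⁺ - x y`
-/

set_option autoImplicit false

open Set Filter Topology Matrix

namespace Pool.Agent.Helper95.MQ

/-- the function `2 x⁺ y⁺ - x y` -/
noncomputable def hx (x y : ℝ) : ℝ := 2 * (max x 0 * max y 0) - x * y

theorem hx_symm (x y : ℝ) : hx x y = hx y x := by
  unfold hx
  ring

theorem hx_grid : ∀ i j : ℤ, ∃ α β γ δ : ℝ, ∀ x ∈ Icc (i : ℝ) ((i + 1 : ℤ) : ℝ),
    ∀ y ∈ Icc (j : ℝ) ((j + 1 : ℤ) : ℝ), hx x y = α + β * x + γ * y + δ * (x * y) := by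
  intro i j
  by_cases h : 0 ≤ i ∧ 0 ≤ j
  · refine ⟨0, 0, 0, 1, fun x hx' y hy => ?_⟩
    have h1 : (0 : ℝ) ≤ x := le_trans (by exact_mod_cast h.1) hx'.1
    have h2 : (0 : ℝ) ≤ y := le_trans (by exact_mod_cast h.2) hy.1
    unfold hx
    rw [max_eq_left h1, max_eq_left h2]
    ring
  · refine ⟨0, 0, 0, -1, fun x hx' y hy => ?_⟩
    have h3 : x ≤ 0 ∨ y ≤ 0 := by
      by_cases h4 : 0 ≤ i
      · right
        have h5 : j + 1 ≤ 0 := by omega
        exact hy.2.trans (by exact_mod_cast h5)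
      · left
        have h5 : i + 1 ≤ 0 := by omega
        exact hx'.2.trans (by exact_mod_cast h5)
    unfold hx
    rcases h3 with h3 | h3
    · rw [max_eq_right h3]
      ring
    · rw [max_eq_right h3]
      ring

theorem hx_conv (y : ℝ) : ConvexOn ℝ univ fun x => hx x y := by
  have h1 : ConvexOn ℝ univ fun x : ℝ => max x 0 :=
    (convexOn_id convex_univ).sup (convexOn_const 0 convex_univ)
  refine ⟨convex_univ, fun x _ x' _ a b ha hb hab => ?_⟩
  have h2 := h1.2 (mem_univ x) (mem_univ x') ha hb hab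
  simp only [smul_eq_mul] at h2 ⊢
  have h3 := mul_le_mul_of_nonneg_right h2 (le_max_right y 0)
  unfold hx
  nlinarith

theorem max_diff (x s : ℝ) : (0 ≤ s → 0 ≤ max (x + s) 0 - max x 0 ∧ max (x + s) 0 - max x 0 ≤ s) ∧
    (s ≤ 0 → s ≤ max (x + s) 0 - max x 0 ∧ max (x + s) 0 - max x 0 ≤ 0) := by
  rcases max_cases (x + s) 0 with h1 | h1 <;> rcases max_cases x 0 with h2 | h2 <;>
  · rw [h1.1, h2.1]
    constructor <;> intro hs <;> constructor <;> linarith [h1.2, h2.2]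

theorem hx_mix (x y s t : ℝ) :
    |hx (x + s) (y + t) - hx (x + s) y - hx x (y + t) + hx x y| ≤ 1 * |s * t| := by
  have e : hx (x + s) (y + t) - hx (x + s) y - hx x (y + t) + hx x y
      = 2 * ((max (x + s) 0 - max x 0) * (max (y + t) 0 - max y 0)) - s * t := by
    unfold hx
    ring
  rw [e, one_mul]
  obtain ⟨h1, h2⟩ := max_diff x s
  obtain ⟨h3, h4⟩ := max_diff y t
  set ξ := max (x + s) 0 - max x 0
  set η := max (y + t) 0 - max y 0
  rcases le_total 0 s with hs | hs <;> rcases le_total 0 t with ht | ht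
  · obtain ⟨a1, a2⟩ := h1 hs
    obtain ⟨b1, b2⟩ := h3 ht
    rw [abs_of_nonneg (mul_nonneg hs ht), abs_le]
    have k1 : ξ * η ≤ s * t := mul_le_mul a2 b2 b1 hs
    have k2 : 0 ≤ ξ * η := mul_nonneg a1 b1
    constructor <;> linarith
  · obtain ⟨a1, a2⟩ := h1 hs
    obtain ⟨b1, b2⟩ := h4 ht
    rw [abs_of_nonpos (mul_nonpos_of_nonneg_of_nonpos hs ht), abs_le]
    have k1 : ξ * (-η) ≤ s * (-t) := mul_le_mul a2 (by linarith) (by linarith) hs
    have k2 : 0 ≤ ξ * (-η) := mul_nonneg a1 (by linarith)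
    constructor <;> linarith
  · obtain ⟨a1, a2⟩ := h2 hs
    obtain ⟨b1, b2⟩ := h3 ht
    rw [abs_of_nonpos (mul_nonpos_of_nonpos_of_nonneg hs ht), abs_le]
    have k1 : (-ξ) * η ≤ (-s) * t := mul_le_mul (by linarith) b2 b1 (by linarith)
    have k2 : 0 ≤ (-ξ) * η := mul_nonneg (by linarith) b1
    constructor <;> linarith
  · obtain ⟨a1, a2⟩ := h2 hs
    obtain ⟨b1, b2⟩ := h4 ht
    rw [abs_of_nonneg (mul_nonneg_of_nonpos_of_nonpos hs ht), abs_le]
    have k1 : (-ξ) * (-η) ≤ (-s) * (-t) :=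
      mul_le_mul (by linarith) (by linarith) (by linarith) (by linarith)
    have k2 : 0 ≤ (-ξ) * (-η) := mul_nonneg (by linarith) (by linarith)
    constructor <;> linarith

/-- the energy of the example -/
noncomputable def Wx : Matrix (Fin 2) (Fin 2) ℝ → ℝ := En hx (1 / 4) (1 / 4) (1 / 4) (1 / 4) 0

theorem Wx_roc : Helper188.Morrey.RankOneConvex Wx := by
  refine sep_roc hx 1 (1 / 4) (1 / 4) (1 / 4) (1 / 4) 0 (by norm_num) (by norm_num) (by norm_num)
    (by norm_num) hx_conv (fun x => ?_) hx_mix ?_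
  · have := hx_conv x
    refine this.congr fun y _ => ?_
    exact hx_symm y x
  · have : Real.sqrt (1 / 4 * (1 / 4)) = 1 / 4 := by
      rw [Real.sqrt_mul_self (by norm_num)]
    rw [this]
    norm_num

/-- the example is not polyconvex -/
theorem Wx_not_poly : ¬ ∃ P : Matrix (Fin 2) (Fin 2) ℝ × ℝ → EReal, (∀ z, P z ≠ ⊥) ∧
    (∀ z w : Matrix (Fin 2) (Fin 2) ℝ × ℝ, ∀ a b : ℝ, 0 ≤ a → 0 ≤ b → a + b = 1 →
      P (a • z + b • w) ≤ (a : EReal) * P z + (b : EReal) * P w) ∧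
    ∀ F, P (F, F.det) = (Wx F : EReal) := by
  rintro ⟨P, -, hconv, hP⟩
  have hD : ∀ x y : ℝ, P (!![x, 0; 0, y], x * y)
      = ((hx x y + (1 / 4 * x ^ 2 + 1 / 4 * y ^ 2) : ℝ) : EReal) := by
    intro x y
    have h := hP !![x, 0; 0, y]
    rw [Matrix.det_fin_two_of] at h
    have e1 : x * y - 0 * 0 = x * y := by ring
    rw [e1] at h
    rw [h]
    unfold Wx
    rw [En_mat]
    congr 1
    ring
  have step : ∀ (z w : Matrix (Fin 2) (Fin 2) ℝ × ℝ) (a b r s t : ℝ)
      (y : Matrix (Fin 2) (Fin 2) ℝ × ℝ), 0 ≤ a → 0 ≤ b → a + b = 1 →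
      P z ≤ (r : EReal) → P w ≤ (s : EReal) → a • z + b • w = y → a * r + b * s = t →
      P y ≤ (t : EReal) := by
    intro z w a b r s t y ha hb hab h1 h2 h3 h4
    have h := hconv z w a b ha hb hab
    rw [h3] at h
    refine h.trans ?_
    have k1 : (a : EReal) * P z ≤ (a : EReal) * (r : EReal) :=
      mul_le_mul_of_nonneg_left h1 (by exact_mod_cast ha)
    have k2 : (b : EReal) * P w ≤ (b : EReal) * (s : EReal) :=
      mul_le_mul_of_nonneg_left h2 (by exact_mod_cast hb)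
    refine (add_le_add k1 k2).trans ?_
    rw [← EReal.coe_mul, ← EReal.coe_mul, ← EReal.coe_add, h4]
  have v1 : P (!![2, 0; 0, 0], 0) ≤ ((1 : ℝ) : EReal) := by
    have h := hD 2 0
    rw [mul_zero] at h
    rw [h, EReal.coe_le_coe_iff]
    unfold hx
    norm_num
  have v2 : P (!![0, 0; 0, 2], 0) ≤ ((1 : ℝ) : EReal) := by
    have h := hD 0 2
    rw [zero_mul] at h
    rw [h, EReal.coe_le_coe_iff]
    unfold hx
    norm_num
  have v3 : P (!![-5, 0; 0, -5], 25) ≤ ((-25 / 2 : ℝ) : EReal) := by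
    have h := hD (-5) (-5)
    have e : (-5 : ℝ) * -5 = 25 := by norm_num
    rw [e] at h
    rw [h, EReal.coe_le_coe_iff]
    unfold hx
    norm_num
  have v4 : P (!![3, 0; 0, 3], 9) ≤ ((27 / 2 : ℝ) : EReal) := by
    have h := hD 3 3
    have e : (3 : ℝ) * 3 = 9 := by norm_num
    rw [e] at h
    rw [h, EReal.coe_le_coe_iff]
    unfold hx
    norm_num
  have w1 : P (!![1, 0; 0, 1], 0) ≤ ((1 : ℝ) : EReal) := by
    refine step _ _ (1 / 2) (1 / 2) 1 1 1 _ (by norm_num) (by norm_num) (by norm_num) v1 v2 ?_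
      (by norm_num)
    ext i j
    · fin_cases i <;> fin_cases j <;> simp
    · simp
  have w2 : P (!![1, 0; 0, 1], 13) ≤ ((7 : ℝ) : EReal) := by
    refine step _ _ (1 / 4) (3 / 4) (-25 / 2) (27 / 2) 7 _ (by norm_num) (by norm_num)
      (by norm_num) v3 v4 ?_ (by norm_num)
    ext i j
    · fin_cases i <;> fin_cases j <;> simp <;> norm_num
    · simp
      norm_num
  have w3 : P (!![1, 0; 0, 1], 1) ≤ ((19 / 13 : ℝ) : EReal) := by
    refine step _ _ (12 / 13) (1 / 13) 1 7 (19 / 13) _ (by norm_num) (by norm_num)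
      (by norm_num) w1 w2 ?_ (by norm_num)
    ext i j
    · fin_cases i <;> fin_cases j <;> simp <;> norm_num
    · simp
  have h := hD 1 1
  rw [one_mul] at h
  rw [h, EReal.coe_le_coe_iff] at w3
  unfold hx at w3
  norm_num at w3

end Pool.Agent.Helper95.MQ
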