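import Pool.Agent.Helper27.MQ.Flow

/-!
# Monotonicity along a heat flow which is different for the two components

The flow is `∂ₜ u_r = (β_r · ∇)² u_r + ε Δ u_r`, `r = 0, 1`, with vectors `β₀`, `β₁` and `ε > 0`.
-/

set_option autoImplicit false

open MeasureTheory Set Filter Topology

namespace Pool.Agent.Helper95.MQ

open Pool.Agent.W779.Morrey Pool.Agent.N555.MQ Pool.Agent.Helper27.MQ

/-- Dissipation in the direction `β`, with a linear map `R` of the matrices. -/
theorem dissipR {W : E → ℝ} (hW : ContDiff ℝ 2 W) (R : E →L[ℝ] E) (β : V) (F : V → E)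
    (G H : Fin 2 → V → E)
    (hF : ∀ x, HasFDerivAt F (mk' fun j => G j x) x)
    (hG : ∀ x, HasFDerivAt (fun x => β 0 • G 0 x + β 1 • G 1 x) (mk' fun l => H l x) x)
    (hGc : ∀ j, Continuous (G j)) (hH : ∀ l, Continuous (H l))
    (hpF : ∀ i x, F (x + Pi.single i 1) = F x)
    (hpG : ∀ j i x, G j (x + Pi.single i 1) = G j x) :
    ∫ x in Icc (0 : V) 1,
      (fderiv ℝ (fderiv ℝ W) (F x) (β 0 • G 0 x + β 1 • G 1 x) (R (β 0 • G 0 x + β 1 • G 1 x))
      + fderiv ℝ W (F x) (R (β 0 • H 0 x + β 1 • H 1 x))) = 0 := by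
  have hFc : Continuous F := continuous_iff_continuousAt.2 fun x => (hF x).continuousAt
  have hP1 : ContDiff ℝ 1 (fderiv ℝ W) := hW.fderiv_right (by norm_num)
  have hPd : ∀ y, HasFDerivAt (fderiv ℝ W) (fderiv ℝ (fderiv ℝ W) y) y := fun y =>
    (hP1.differentiable (by norm_num) y).hasFDerivAt
  have hHc : Continuous (fderiv ℝ (fderiv ℝ W)) := hP1.continuous_fderiv (by norm_num)
  set P := fderiv ℝ W with hPdef
  set S := fderiv ℝ P with hHdef
  have hGbc : Continuous (fun x => β 0 • G 0 x + β 1 • G 1 x) :=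
    ((hGc 0).const_smul (β 0)).add ((hGc 1).const_smul (β 1))
  have hRG : ∀ x, HasFDerivAt (fun x => R (β 0 • G 0 x + β 1 • G 1 x))
      (R.comp (mk' fun l => H l x)) x := fun x => R.hasFDerivAt.comp x (hG x)
  have d1 : ∀ x, HasFDerivAt (fun x => P (F x) (R (β 0 • G 0 x + β 1 • G 1 x)))
      ((P (F x)).comp (R.comp (mk' fun l => H l x))
        + ((S (F x)).comp (mk' fun j => G j x)).flip (R (β 0 • G 0 x + β 1 • G 1 x)))
      x := fun x => ((hPd (F x)).comp x (hF x)).clm_apply (hRG x)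
  have c1 : Continuous (fun x => (P (F x)).comp (R.comp (mk' fun l => H l x))
        + ((S (F x)).comp (mk' fun j => G j x)).flip (R (β 0 • G 0 x + β 1 • G 1 x))) := by
    have a1 := continuous_mk' H hH
    have a1' : Continuous (fun x => R.comp (mk' fun l => H l x)) :=
      continuous_const.clm_comp a1
    have a2 := continuous_mk' G hGc
    have a3 : Continuous (fun x => P (F x)) := hP1.continuous.comp hFc
    have a4 : Continuous (fun x => S (F x)) := hHc.comp hFc
    refine (a3.clm_comp a1').add ?_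
    have a5 := a4.clm_comp a2
    have a6 : Continuous (fun x => ((S (F x)).comp (mk' fun j => G j x)).flip) :=
      (ContinuousLinearMap.flipₗᵢ ℝ V E ℝ).continuous.comp a5
    exact a6.clm_apply (R.continuous.comp hGbc)
  have key := integral_div_periodic
    (fun i x => β i * P (F x) (R (β 0 • G 0 x + β 1 • G 1 x)))
    (fun i x => β i • ((P (F x)).comp (R.comp (mk' fun l => H l x))
        + ((S (F x)).comp (mk' fun j => G j x)).flip (R (β 0 • G 0 x + β 1 • G 1 x))))
    (fun i x => (d1 x).const_mul (β i))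
    (fun i => c1.const_smul (β i))
    (by
      intro i x _
      simp [hpF, hpG])
  rw [← key]
  refine integral_congr_ae (Eventually.of_forall fun x => ?_)
  simp only [Fin.sum_univ_two,
    _root_.add_apply, FunLike.coe_smul, Pi.smul_apply, ContinuousLinearMap.comp_apply,
    ContinuousLinearMap.flip_apply, mk'_single, map_add, map_smul, smul_eq_mul]
  ring

/-- the projection to the row `r` -/
noncomputable def Pr (r : Fin 2) : E →L[ℝ] E :=
  (ContinuousLinearMap.single ℝ (fun _ : Fin 2 => V) r).comp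
    (ContinuousLinearMap.proj (R := ℝ) (φ := fun _ : Fin 2 => V) r)

theorem Pr_apply (r : Fin 2) (F : E) : Pr r F = Pi.single r (F r) := rfl

theorem Pr_apply' (r s l : Fin 2) (F : E) : Pr r F s l = if s = r then F s l else 0 := by
  rw [Pr_apply]
  by_cases h : s = r
  · subst h; simp
  · simp [h]

theorem int4 {μ : Measure V} {f₁ f₂ f₃ f₄ : V → ℝ} {ε : ℝ} (h₁ : Integrable f₁ μ)
    (h₂ : Integrable f₂ μ) (h₃ : Integrable f₃ μ) (h₄ : Integrable f₄ μ) :
    ∫ x, (f₁ x + f₂ x + ε * (f₃ x + f₄ x)) ∂μ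
      = (∫ x, f₁ x ∂μ) + (∫ x, f₂ x ∂μ) + ε * ((∫ x, f₃ x ∂μ) + ∫ x, f₄ x ∂μ) := by
  have h12 : Integrable (fun x => f₁ x + f₂ x) μ := h₁.add h₂
  have h34 : Integrable (fun x => ε * (f₃ x + f₄ x)) μ := (h₃.add h₄).const_mul ε
  rw [integral_add h12 h34, integral_add h₁ h₂, integral_const_mul, integral_add h₃ h₄]

section fam

variable {ι : Type*} [Fintype ι]

theorem Pr_Fam (r : Fin 2) (k : ι → Fin 2 → ℤ) (A B : ι → E) (x : V) :
    Pr r (Fam k A B 1 x) = Fam k (fun i => Pr r (A i)) (fun i => Pr r (B i)) 1 x := by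
  simp only [Fam_one, map_sum]
  refine Finset.sum_congr rfl fun i _ => ?_
  simp only [tm, map_add, map_smul]

/-- dissipation for the component `r` in one direction -/
theorem dis_row {W : E → ℝ} (hW : ContDiff ℝ 2 W) (R : E →L[ℝ] E) (β : V) (F₀ : E)
    (k : ι → Fin 2 → ℤ) (A B : ι → E) :
    ∫ x in Icc (0 : V) 1,
      (fderiv ℝ (fderiv ℝ W) (F₀ + Fam k A B 1 x) (β 0 • D1 k A B 0 x + β 1 • D1 k A B 1 x)
        (R (β 0 • D1 k A B 0 x + β 1 • D1 k A B 1 x))
      + fderiv ℝ W (F₀ + Fam k A B 1 x)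
        (R (Fam k (fun i => -(fr β k i ^ 2) • A i) (fun i => -(fr β k i ^ 2) • B i) 1 x))) = 0 := by
  have hdir : ∀ x, β 0 • Fam k (dA k B 0) (dB k A 0) 1 x + β 1 • Fam k (dA k B 1) (dB k A 1) 1 x
      = Fam k (ml β k B) (fun i => - ml β k A i) 1 x := fun x => dir_Fam β k A B x
  have hdis := dissipR hW R β (fun x => F₀ + Fam k A B 1 x)
    (fun j => Fam k (dA k B j) (dB k A j) 1)
    (fun l => Fam k (dA k (fun i => - ml β k A i) l) (dB k (ml β k B) l) 1)
    (fun x => (hasFDerivAt_Fam k A B 1 x).const_add F₀)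
    (fun x => by
      simp only [hdir]
      exact hasFDerivAt_Fam k (ml β k B) (fun i => - ml β k A i) 1 x)
    (fun j => continuous_Fam k _ _ 1) (fun l => continuous_Fam k _ _ 1)
    (fun i x => by rw [Fam_periodic]) (fun j i x => by rw [Fam_periodic])
  rw [← hdis]
  refine integral_congr_ae (Eventually.of_forall fun x => ?_)
  simp only [D1, heat0]

/-- The pointwise inequality which makes the energy decrease. -/
def RCert (W : E → ℝ) (β : Fin 2 → V) (ε : ℝ) : Prop :=
  ∀ F G₀ G₁ : E, (∀ r, G₀ r 1 = G₁ r 0) →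
    0 ≤ fderiv ℝ (fderiv ℝ W) F (β 0 0 • G₀ + β 0 1 • G₁) (Pr 0 (β 0 0 • G₀ + β 0 1 • G₁))
      + fderiv ℝ (fderiv ℝ W) F (β 1 0 • G₀ + β 1 1 • G₁) (Pr 1 (β 1 0 • G₀ + β 1 1 • G₁))
      + ε * (fderiv ℝ (fderiv ℝ W) F G₀ G₀ + fderiv ℝ (fderiv ℝ W) F G₁ G₁)

/-- the symbol of the flow of the component `r` -/
noncomputable def sy (β : Fin 2 → V) (ε : ℝ) (k : ι → Fin 2 → ℤ) (r : Fin 2) (i : ι) : ℝ :=
  fr (β r) k i ^ 2 + ε * (fr ![1, 0] k i ^ 2 + fr ![0, 1] k i ^ 2)

/-- multiplication of the rows by the symbols -/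
noncomputable def my (β : Fin 2 → V) (ε : ℝ) (k : ι → Fin 2 → ℤ) (A : ι → E) : ι → E :=
  fun i r l => -(sy β ε k r i) * A i r l

theorem stepR {W : E → ℝ} (hW : ContDiff ℝ 2 W) (β : Fin 2 → V) (ε : ℝ)
    (hcond : RCert W β ε) (F₀ : E) (k : ι → Fin 2 → ℤ) (c d : ι → V) :
    ∫ x in Icc (0 : V) 1, fderiv ℝ W (F₀ + Fam k (grk k c) (grk k d) 1 x)
      (Fam k (my β ε k (grk k c)) (my β ε k (grk k d)) 1 x) ≤ 0 := by
  set A := grk k c with hA
  set B := grk k d with hB
  have hP1 : ContDiff ℝ 1 (fderiv ℝ W) := hW.fderiv_right (by norm_num)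
  have hHc : Continuous (fderiv ℝ (fderiv ℝ W)) := hP1.continuous_fderiv (by norm_num)
  have hFc : Continuous (fun x => F₀ + Fam k A B 1 x) :=
    continuous_const.add (continuous_Fam k A B 1)
  have hDc : ∀ l, Continuous (D1 k A B l) := fun l => continuous_Fam k _ _ 1
  have q1 := dis_row hW (Pr 0) (β 0) F₀ k A B
  have q2 := dis_row hW (Pr 1) (β 1) F₀ k A B
  have q3 := dis_one hW ![1, 0] F₀ k A B
  have q4 := dis_one hW ![0, 1] F₀ k A B
  have hdirc : ∀ β : V, Continuous (fun x => β 0 • D1 k A B 0 x + β 1 • D1 k A B 1 x) :=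
    fun β => ((hDc 0).const_smul (β 0)).add ((hDc 1).const_smul (β 1))
  have i1 : ∀ (R : E →L[ℝ] E) (β : V), IntegrableOn (fun x =>
      fderiv ℝ (fderiv ℝ W) (F₀ + Fam k A B 1 x)
      (β 0 • D1 k A B 0 x + β 1 • D1 k A B 1 x)
      (R (β 0 • D1 k A B 0 x + β 1 • D1 k A B 1 x))) (Icc (0 : V) 1) := fun R β =>
    Continuous.integrableOn_Icc (((hHc.comp hFc).clm_apply (hdirc β)).clm_apply
      (R.continuous.comp (hdirc β)))
  have i1' : ∀ (β : V), IntegrableOn (fun x =>
      fderiv ℝ (fderiv ℝ W) (F₀ + Fam k A B 1 x)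
      (β 0 • D1 k A B 0 x + β 1 • D1 k A B 1 x)
      (β 0 • D1 k A B 0 x + β 1 • D1 k A B 1 x)) (Icc (0 : V) 1) := fun β =>
    i1 (ContinuousLinearMap.id ℝ E) β
  have i2 : ∀ (R : E →L[ℝ] E) (A' B' : ι → E), IntegrableOn (fun x =>
      fderiv ℝ W (F₀ + Fam k A B 1 x) (R (Fam k A' B' 1 x))) (Icc (0 : V) 1) := fun R A' B' =>
    Continuous.integrableOn_Icc ((hP1.continuous.comp hFc).clm_apply
      (R.continuous.comp (continuous_Fam k _ _ 1)))
  have i2' : ∀ (A' B' : ι → E), IntegrableOn (fun x =>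
      fderiv ℝ W (F₀ + Fam k A B 1 x) (Fam k A' B' 1 x)) (Icc (0 : V) 1) := fun A' B' =>
    i2 (ContinuousLinearMap.id ℝ E) A' B'
  rw [integral_add (i1 _ _) (i2 _ _ _)] at q1
  rw [integral_add (i1 _ _) (i2 _ _ _)] at q2
  rw [integral_add (i1' _) (i2' _ _)] at q3
  rw [integral_add (i1' _) (i2' _ _)] at q4
  have e3 : ∀ x, (![1, 0] : V) 0 • D1 k A B 0 x + (![1, 0] : V) 1 • D1 k A B 1 x
      = D1 k A B 0 x := by intro x; simp
  have e4 : ∀ x, (![0, 1] : V) 0 • D1 k A B 0 x + (![0, 1] : V) 1 • D1 k A B 1 x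
      = D1 k A B 1 x := by intro x; simp
  simp only [e3] at q3
  simp only [e4] at q4
  have i3 := i1' ![1, 0]
  have i4 := i1' ![0, 1]
  simp only [e3] at i3
  simp only [e4] at i4
  have hnn : 0 ≤ ∫ x in Icc (0 : V) 1,
      (fderiv ℝ (fderiv ℝ W) (F₀ + Fam k A B 1 x)
          (β 0 0 • D1 k A B 0 x + β 0 1 • D1 k A B 1 x)
          (Pr 0 (β 0 0 • D1 k A B 0 x + β 0 1 • D1 k A B 1 x))
      + fderiv ℝ (fderiv ℝ W) (F₀ + Fam k A B 1 x)
          (β 1 0 • D1 k A B 0 x + β 1 1 • D1 k A B 1 x)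
          (Pr 1 (β 1 0 • D1 k A B 0 x + β 1 1 • D1 k A B 1 x))
      + ε * (fderiv ℝ (fderiv ℝ W) (F₀ + Fam k A B 1 x) (D1 k A B 0 x) (D1 k A B 0 x)
        + fderiv ℝ (fderiv ℝ W) (F₀ + Fam k A B 1 x) (D1 k A B 1 x) (D1 k A B 1 x))) :=
    integral_nonneg fun x => hcond _ _ _ (fun r => D1_grk k c d x r)
  rw [int4 (i1 _ _) (i1 _ _) i3 i4] at hnn
  have hsum : ∀ x, Fam k (my β ε k A) (my β ε k B) 1 x
      = Pr 0 (Fam k (fun i => -(fr (β 0) k i ^ 2) • A i) (fun i => -(fr (β 0) k i ^ 2) • B i) 1 x)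
        + Pr 1 (Fam k (fun i => -(fr (β 1) k i ^ 2) • A i)
          (fun i => -(fr (β 1) k i ^ 2) • B i) 1 x)
        + ε • (Fam k (fun i => -(fr ![1, 0] k i ^ 2) • A i) (fun i => -(fr ![1, 0] k i ^ 2) • B i) 1 x
        + Fam k (fun i => -(fr ![0, 1] k i ^ 2) • A i)
          (fun i => -(fr ![0, 1] k i ^ 2) • B i) 1 x) := by
    intro x
    rw [Pr_Fam, Pr_Fam]
    simp only [Fam_one]
    rw [← Finset.sum_add_distrib, ← Finset.sum_add_distrib, Finset.smul_sum,
      ← Finset.sum_add_distrib]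
    refine Finset.sum_congr rfl fun i _ => ?_
    ext r l
    fin_cases r <;>
    · simp [tm, my, sy, Pr_apply']
      ring
  simp only [hsum, map_add, map_smul, smul_eq_mul]
  rw [int4 (i2 _ _ _) (i2 _ _ _) (i2' _ _) (i2' _ _)]
  have q5 : ∫ x in Icc (0 : V) 1, fderiv ℝ W (F₀ + Fam k A B 1 x)
      (Fam k (fun i => -(fr ![1, 0] k i ^ 2) • A i) (fun i => -(fr ![1, 0] k i ^ 2) • B i) 1 x)
      = - ∫ x in Icc (0 : V) 1, fderiv ℝ (fderiv ℝ W) (F₀ + Fam k A B 1 x)
        (D1 k A B 0 x) (D1 k A B 0 x) := by linarith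
  have q6 : ∫ x in Icc (0 : V) 1, fderiv ℝ W (F₀ + Fam k A B 1 x)
      (Fam k (fun i => -(fr ![0, 1] k i ^ 2) • A i) (fun i => -(fr ![0, 1] k i ^ 2) • B i) 1 x)
      = - ∫ x in Icc (0 : V) 1, fderiv ℝ (fderiv ℝ W) (F₀ + Fam k A B 1 x)
        (D1 k A B 1 x) (D1 k A B 1 x) := by linarith
  rw [q5, q6]
  linarith

/-- the coefficients at time `t` -/
noncomputable def dr (β : Fin 2 → V) (ε : ℝ) (k : ι → Fin 2 → ℤ) (t : ℝ) (c : ι → V) : ι → V :=
  fun i r => Real.exp (-(t * sy β ε k r i)) * c i r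

omit [Fintype ι] in
theorem grk_dr (β : Fin 2 → V) (ε : ℝ) (k : ι → Fin 2 → ℤ) (t : ℝ) (c : ι → V) :
    grk k (dr β ε k t c) = fun i r l => Real.exp (-(t * sy β ε k r i)) * grk k c i r l := by
  funext i r l
  simp only [grk, dr]
  ring

theorem hasDerivAt_dr (β : Fin 2 → V) (ε : ℝ) (k : ι → Fin 2 → ℤ) (c d : ι → V) (t : ℝ) (x : V) :
    HasDerivAt (fun t => Fam k (grk k (dr β ε k t c)) (grk k (dr β ε k t d)) 1 x)
      (Fam k (my β ε k (grk k (dr β ε k t c))) (my β ε k (grk k (dr β ε k t d))) 1 x) t := by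
  simp only [Fam_one]
  refine HasDerivAt.fun_sum fun i _ => ?_
  rw [hasDerivAt_pi]
  intro r
  rw [hasDerivAt_pi]
  intro l
  have h0 : HasDerivAt (fun t : ℝ => Real.exp (-(t * sy β ε k r i)))
      (Real.exp (-(t * sy β ε k r i)) * (-(1 * sy β ε k r i))) t :=
    (((hasDerivAt_id t).mul_const (sy β ε k r i)).neg).exp
  have h1 := (h0.mul_const (grk k c i r l)).const_mul (Real.cos (ph (k i) x))
  have h2 := (h0.mul_const (grk k d i r l)).const_mul (Real.sin (ph (k i) x))
  have h3 := h1.add h2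
  have e1 : (fun t => tm (k i) (grk k (dr β ε k t c) i) (grk k (dr β ε k t d) i) x r l)
      = fun t => Real.cos (ph (k i) x) * (Real.exp (-(t * sy β ε k r i)) * grk k c i r l)
        + Real.sin (ph (k i) x) * (Real.exp (-(t * sy β ε k r i)) * grk k d i r l) := by
    funext t
    simp only [tm, grk_dr, Pi.add_apply, Pi.smul_apply, smul_eq_mul]
  rw [e1]
  refine h3.congr_deriv ?_
  simp only [tm, my, grk_dr, Pi.add_apply, Pi.smul_apply, smul_eq_mul]
  ring

omit [Fintype ι] in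
theorem continuous_grk_dr (β : Fin 2 → V) (ε : ℝ) (k : ι → Fin 2 → ℤ) (c : ι → V) (i : ι) :
    Continuous (fun t => grk k (dr β ε k t c) i) := by
  simp only [grk_dr]
  refine continuous_pi fun r => continuous_pi fun l => ?_
  fun_prop

theorem flow_leR {W : E → ℝ} (hW : ContDiff ℝ 2 W) (β : Fin 2 → V) (ε : ℝ)
    (hcond : RCert W β ε) (F₀ : E) (k : ι → Fin 2 → ℤ) (c d : ι → V) {T : ℝ} (hT : 0 ≤ T) :
    ∫ x in Icc (0 : V) 1, W (F₀ + Fam k (grk k (dr β ε k T c)) (grk k (dr β ε k T d)) 1 x)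
      ≤ ∫ x in Icc (0 : V) 1, W (F₀ + Fam k (grk k c) (grk k d) 1 x) := by
  have hP1 : ContDiff ℝ 1 (fderiv ℝ W) := hW.fderiv_right (by norm_num)
  have h00 : ∀ (c : ι → V), dr β ε k 0 c = c := by
    intro c
    funext i r
    simp [dr]
  have hFc : Continuous (fun p : ℝ × V =>
      F₀ + Fam k (grk k (dr β ε k p.1 c)) (grk k (dr β ε k p.1 d)) 1 p.2) :=
    continuous_const.add (continuous_Fam_coef k
      (fun i => (continuous_grk_dr β ε k c i).comp continuous_fst)
      (fun i => (continuous_grk_dr β ε k d i).comp continuous_fst) continuous_snd)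
  have hsm : ∀ (c : ι → V) (i : ι),
      Continuous (fun p : ℝ × V => my β ε k (grk k (dr β ε k p.1 c)) i) := by
    intro c i
    refine continuous_pi fun r => continuous_pi fun l => ?_
    have h1 := (continuous_grk_dr β ε k c i).comp (continuous_fst (X := ℝ) (Y := V))
    have h2 : Continuous (fun p : ℝ × V => grk k (dr β ε k p.1 c) i r l) :=
      (continuous_apply l).comp ((continuous_apply r).comp h1)
    exact continuous_const.mul h2
  have hGc : Continuous (fun p : ℝ × V =>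
      Fam k (my β ε k (grk k (dr β ε k p.1 c))) (my β ε k (grk k (dr β ε k p.1 d))) 1 p.2) :=
    continuous_Fam_coef k
      (A := fun (p : ℝ × V) i => my β ε k (grk k (dr β ε k p.1 c)) i)
      (B := fun (p : ℝ × V) i => my β ε k (grk k (dr β ε k p.1 d)) i)
      (hsm _) (hsm _) continuous_snd
  have h := fub (fun t x => W (F₀ + Fam k (grk k (dr β ε k t c)) (grk k (dr β ε k t d)) 1 x))
    (fun t x => fderiv ℝ W (F₀ + Fam k (grk k (dr β ε k t c)) (grk k (dr β ε k t d)) 1 x)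
      (Fam k (my β ε k (grk k (dr β ε k t c))) (my β ε k (grk k (dr β ε k t d))) 1 x))
    (fun t x => ((hW.differentiable (by norm_num) _).hasFDerivAt).comp_hasDerivAt t
      ((hasDerivAt_dr β ε k c d t x).const_add F₀))
    (hW.continuous.comp hFc) ((hP1.continuous.comp hFc).clm_apply hGc)
    (fun t => stepR hW β ε hcond F₀ k _ _) hT
  simpa only [h00] using h

omit [Fintype ι] in
theorem sy_pos (β : Fin 2 → V) {ε : ℝ} (hε : 0 < ε) (k : ι → Fin 2 → ℤ) (r : Fin 2) (i : ι)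
    (hk : k i ≠ 0) : 0 < sy β ε k r i := by
  have hcr : cr (![1, 0] : V) ![0, 1] ≠ 0 := by simp [cr]
  have h := fq_pos hcr k i hk
  unfold fq at h
  unfold sy
  have := mul_pos hε h
  positivity

theorem limit_zeroR {W : E → ℝ} (hW : Continuous W) (β : Fin 2 → V) {ε : ℝ} (hε : 0 < ε)
    (F₀ : E) (k : ι → Fin 2 → ℤ) (c d : ι → V) :
    Tendsto (fun n : ℕ => ∫ x in Icc (0 : V) 1,
      W (F₀ + Fam k (grk k (dr β ε k n c)) (grk k (dr β ε k n d)) 1 x)) atTop
      (𝓝 (W F₀)) := by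
  have hle : ∀ (c : ι → V) (n : ℕ) (i : ι), ‖grk k (dr β ε k n c) i‖ ≤ ‖grk k c i‖ := by
    intro c n i
    rw [grk_dr]
    refine (pi_norm_le_iff_of_nonneg (norm_nonneg _)).2 fun r => ?_
    refine (pi_norm_le_iff_of_nonneg (norm_nonneg _)).2 fun l => ?_
    rw [norm_mul, Real.norm_eq_abs, abs_of_pos (Real.exp_pos _)]
    refine (mul_le_of_le_one_left (norm_nonneg _) ?_).trans
      ((norm_le_pi_norm _ l).trans (norm_le_pi_norm _ r))
    rw [Real.exp_le_one_iff]
    have : 0 ≤ (n : ℝ) * sy β ε k r i := by unfold sy; positivity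
    linarith
  have hlim : ∀ (c : ι → V) (i : ι), Tendsto (fun n : ℕ => grk k (dr β ε k n c) i) atTop
      (𝓝 0) := by
    intro c i
    simp only [grk_dr]
    rw [tendsto_pi_nhds]
    intro r
    rw [tendsto_pi_nhds]
    intro l
    by_cases hk : k i = 0
    · have h0 : grk k c i r l = 0 := by
        simp [grk, hk]
      simp [h0]
    · have h1 : Tendsto (fun n : ℕ => Real.exp (-((n : ℝ) * sy β ε k r i))) atTop (𝓝 0) := by
        refine Real.tendsto_exp_neg_atTop_nhds_zero.comp ?_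
        refine Tendsto.atTop_mul_const (sy_pos β hε k r i hk) ?_
        exact tendsto_natCast_atTop_atTop
      have h2 := h1.mul_const (grk k c i r l)
      simpa using h2
  set C : ℝ := ∑ i, (‖grk k c i‖ + ‖grk k d i‖) with hC
  have hAC : ∀ i, ‖grk k c i‖ ≤ C := by
    intro i
    have := Finset.single_le_sum (f := fun i => ‖grk k c i‖ + ‖grk k d i‖)
      (fun j _ => by positivity) (Finset.mem_univ i)
    linarith [norm_nonneg (grk k d i)]
  have hBC : ∀ i, ‖grk k d i‖ ≤ C := by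
    intro i
    have := Finset.single_le_sum (f := fun i => ‖grk k c i‖ + ‖grk k d i‖)
      (fun j _ => by positivity) (Finset.mem_univ i)
    linarith [norm_nonneg (grk k c i)]
  have hbd : ∀ (n : ℕ) x, ‖F₀ + Fam k (grk k (dr β ε k n c)) (grk k (dr β ε k n d)) 1 x‖
      ≤ ‖F₀‖ + Fintype.card ι * (2 * C) := by
    intro n x
    refine (norm_add_le _ _).trans (add_le_add le_rfl ?_)
    exact E_bdd k (fun i => (hle c n i).trans (hAC i)) (fun i => (hle d n i).trans (hBC i)) x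
  obtain ⟨K, hK⟩ := (isCompact_closedBall (0 : E)
    (‖F₀‖ + Fintype.card ι * (2 * C))).exists_bound_of_continuousOn hW.continuousOn
  have hprob := volume_cube'
  have e0 : W F₀ = ∫ x in Icc (0 : V) 1, W F₀ := by
    rw [integral_const]
    simp
  rw [e0]
  refine tendsto_integral_of_dominated_convergence (fun _ => K) (fun n => ?_) ?_ (fun n => ?_) ?_
  · exact (hW.comp (continuous_const.add (continuous_Fam k _ _ 1))).aestronglyMeasurable
  · exact continuous_const.integrableOn_Icc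
  · refine Eventually.of_forall fun x => ?_
    refine hK _ ?_
    rw [mem_closedBall_zero_iff]
    exact hbd n x
  · refine Eventually.of_forall fun x => ?_
    refine (hW.tendsto _).comp ?_
    have h3 : Tendsto (fun n : ℕ => Fam k (grk k (dr β ε k n c)) (grk k (dr β ε k n d)) 1 x)
        atTop (𝓝 0) := by
      simp only [Fam_one]
      have : (0 : E) = ∑ i : ι, (0 : E) := by simp
      rw [this]
      refine tendsto_finsetSum _ fun i _ => ?_
      unfold tm
      have := ((hlim c i).const_smul (Real.cos (ph (k i) x))).add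
        ((hlim d i).const_smul (Real.sin (ph (k i) x)))
      simpa using this
    simpa using h3.const_add F₀

/-- **Functions of class `C²` with a certificate for a componentwise heat flow are
quasiconvex.** -/
theorem rcert_main {W : E → ℝ} (hW : ContDiff ℝ 2 W) (β : Fin 2 → V) {ε : ℝ} (hε : 0 < ε)
    (hcond : RCert W β ε) : QCtrig W := by
  intro ι _ F₀ k c d
  refine le_of_tendsto (limit_zeroR hW.continuous β hε F₀ k c d)
    (Eventually.of_forall fun n => ?_)
  exact flow_leR hW β ε hcond F₀ k c d (Nat.cast_nonneg n)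

end fam

end Pool.Agent.Helper95.MQ
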