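import Pool.Agent.Helper95.MQ.Flow

/-!
# The flow with weights and constant null Lagrangians

The flow is `∂ₜ u_r = ∑ⱼ w_{r j} ∂ⱼ² u_r` with positive weights `w_{r j}`.
-/

set_option autoImplicit false

open MeasureTheory Set Filter Topology

namespace Pool.Agent.Helper95.MQ

open Pool.Agent.W779.Morrey Pool.Agent.N555.MQ Pool.Agent.Helper27.MQ

theorem int5 {μ : Measure V} {f₁ f₂ f₃ f₄ f₅ : V → ℝ} {a b c d : ℝ} (h₁ : Integrable f₁ μ)
    (h₂ : Integrable f₂ μ) (h₃ : Integrable f₃ μ) (h₄ : Integrable f₄ μ) (h₅ : Integrable f₅ μ) :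
    ∫ x, (a * f₁ x + b * f₂ x + c * f₃ x + d * f₄ x + f₅ x) ∂μ
      = a * (∫ x, f₁ x ∂μ) + b * (∫ x, f₂ x ∂μ) + c * (∫ x, f₃ x ∂μ) + d * (∫ x, f₄ x ∂μ)
        + ∫ x, f₅ x ∂μ := by
  have i1 : Integrable (fun x => a * f₁ x) μ := h₁.const_mul a
  have i2 : Integrable (fun x => b * f₂ x) μ := h₂.const_mul b
  have i3 : Integrable (fun x => c * f₃ x) μ := h₃.const_mul c
  have i4 : Integrable (fun x => d * f₄ x) μ := h₄.const_mul d
  have i12 : Integrable (fun x => a * f₁ x + b * f₂ x) μ := i1.add i2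
  have i123 : Integrable (fun x => a * f₁ x + b * f₂ x + c * f₃ x) μ := i12.add i3
  have i1234 : Integrable (fun x => a * f₁ x + b * f₂ x + c * f₃ x + d * f₄ x) μ := i123.add i4
  rw [integral_add i1234 h₅, integral_add i123 i4, integral_add i12 i3, integral_add i1 i2,
    integral_const_mul, integral_const_mul, integral_const_mul, integral_const_mul]

theorem int4' {μ : Measure V} {f₁ f₂ f₃ f₄ : V → ℝ} {a b c d : ℝ} (h₁ : Integrable f₁ μ)
    (h₂ : Integrable f₂ μ) (h₃ : Integrable f₃ μ) (h₄ : Integrable f₄ μ) :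
    ∫ x, (a * f₁ x + b * f₂ x + c * f₃ x + d * f₄ x) ∂μ
      = a * (∫ x, f₁ x ∂μ) + b * (∫ x, f₂ x ∂μ) + c * (∫ x, f₃ x ∂μ) + d * (∫ x, f₄ x ∂μ) := by
  have h := int5 (a := a) (b := b) (c := c) (d := d) h₁ h₂ h₃ h₄ (integrable_zero V ℝ μ)
  simpa using h

section fam

variable {ι : Type*} [Fintype ι]

/-- The pointwise inequality which makes the energy decrease. -/
def WCert (W : E → ℝ) (w : Fin 2 → V) (Ω : E →L[ℝ] E →L[ℝ] ℝ) : Prop :=
  ∀ F G₀ G₁ : E, (∀ r, G₀ r 1 = G₁ r 0) →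
    0 ≤ w 0 0 * fderiv ℝ (fderiv ℝ W) F G₀ (Pr 0 G₀)
      + w 0 1 * fderiv ℝ (fderiv ℝ W) F G₁ (Pr 0 G₁)
      + w 1 0 * fderiv ℝ (fderiv ℝ W) F G₀ (Pr 1 G₀)
      + w 1 1 * fderiv ℝ (fderiv ℝ W) F G₁ (Pr 1 G₁)
      + (Ω G₀ G₁ - Ω G₁ G₀)

/-- the symbol of the flow of the component `r` -/
noncomputable def sw (w : Fin 2 → V) (k : ι → Fin 2 → ℤ) (r : Fin 2) (i : ι) : ℝ :=
  w r 0 * fr ![1, 0] k i ^ 2 + w r 1 * fr ![0, 1] k i ^ 2

/-- multiplication of the rows by the symbols -/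
noncomputable def mw (w : Fin 2 → V) (k : ι → Fin 2 → ℤ) (A : ι → E) : ι → E :=
  fun i r l => -(sw w k r i) * A i r l

theorem stepW {W : E → ℝ} (hW : ContDiff ℝ 2 W) (w : Fin 2 → V) (Ω : E →L[ℝ] E →L[ℝ] ℝ)
    (hcond : WCert W w Ω) (F₀ : E) (k : ι → Fin 2 → ℤ) (c d : ι → V) :
    ∫ x in Icc (0 : V) 1, fderiv ℝ W (F₀ + Fam k (grk k c) (grk k d) 1 x)
      (Fam k (mw w k (grk k c)) (mw w k (grk k d)) 1 x) ≤ 0 := by
  set A := grk k c with hA
  set B := grk k d with hB
  have hP1 : ContDiff ℝ 1 (fderiv ℝ W) := hW.fderiv_right (by norm_num)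
  have hHc : Continuous (fderiv ℝ (fderiv ℝ W)) := hP1.continuous_fderiv (by norm_num)
  have hFc : Continuous (fun x => F₀ + Fam k A B 1 x) :=
    continuous_const.add (continuous_Fam k A B 1)
  have hDc : ∀ l, Continuous (D1 k A B l) := fun l => continuous_Fam k _ _ 1
  have q00 := dis_row hW (Pr 0) ![1, 0] F₀ k A B
  have q01 := dis_row hW (Pr 0) ![0, 1] F₀ k A B
  have q10 := dis_row hW (Pr 1) ![1, 0] F₀ k A B
  have q11 := dis_row hW (Pr 1) ![0, 1] F₀ k A B
  have e3 : ∀ x, (![1, 0] : V) 0 • D1 k A B 0 x + (![1, 0] : V) 1 • D1 k A B 1 x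
      = D1 k A B 0 x := by intro x; simp
  have e4 : ∀ x, (![0, 1] : V) 0 • D1 k A B 0 x + (![0, 1] : V) 1 • D1 k A B 1 x
      = D1 k A B 1 x := by intro x; simp
  simp only [e3] at q00 q10
  simp only [e4] at q01 q11
  have i1 : ∀ (r j : Fin 2), IntegrableOn (fun x =>
      fderiv ℝ (fderiv ℝ W) (F₀ + Fam k A B 1 x) (D1 k A B j x) (Pr r (D1 k A B j x)))
      (Icc (0 : V) 1) := fun r j =>
    Continuous.integrableOn_Icc (((hHc.comp hFc).clm_apply (hDc j)).clm_apply
      ((Pr r).continuous.comp (hDc j)))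
  have i2 : ∀ (r : Fin 2) (A' B' : ι → E), IntegrableOn (fun x =>
      fderiv ℝ W (F₀ + Fam k A B 1 x) (Pr r (Fam k A' B' 1 x))) (Icc (0 : V) 1) := fun r A' B' =>
    Continuous.integrableOn_Icc ((hP1.continuous.comp hFc).clm_apply
      ((Pr r).continuous.comp (continuous_Fam k _ _ 1)))
  have i3 : IntegrableOn (fun x => Ω (D1 k A B 0 x) (D1 k A B 1 x)
      - Ω (D1 k A B 1 x) (D1 k A B 0 x)) (Icc (0 : V) 1) :=
    Continuous.integrableOn_Icc (((Ω.continuous.comp (hDc 0)).clm_apply (hDc 1)).sub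
      ((Ω.continuous.comp (hDc 1)).clm_apply (hDc 0)))
  rw [integral_add (i1 _ _) (i2 _ _ _)] at q00 q01 q10 q11
  have hnull := null_const Ω F₀ k A B
  have hnn : 0 ≤ ∫ x in Icc (0 : V) 1,
      (w 0 0 * fderiv ℝ (fderiv ℝ W) (F₀ + Fam k A B 1 x) (D1 k A B 0 x) (Pr 0 (D1 k A B 0 x))
      + w 0 1 * fderiv ℝ (fderiv ℝ W) (F₀ + Fam k A B 1 x) (D1 k A B 1 x) (Pr 0 (D1 k A B 1 x))
      + w 1 0 * fderiv ℝ (fderiv ℝ W) (F₀ + Fam k A B 1 x) (D1 k A B 0 x) (Pr 1 (D1 k A B 0 x))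
      + w 1 1 * fderiv ℝ (fderiv ℝ W) (F₀ + Fam k A B 1 x) (D1 k A B 1 x) (Pr 1 (D1 k A B 1 x))
      + (Ω (D1 k A B 0 x) (D1 k A B 1 x) - Ω (D1 k A B 1 x) (D1 k A B 0 x))) :=
    integral_nonneg fun x => hcond _ _ _ (fun r => D1_grk k c d x r)
  rw [int5 (i1 _ _) (i1 _ _) (i1 _ _) (i1 _ _) i3, hnull] at hnn
  have hsum : ∀ x, Fam k (mw w k A) (mw w k B) 1 x
      = w 0 0 • Pr 0 (Fam k (fun i => -(fr ![1, 0] k i ^ 2) • A i)
          (fun i => -(fr ![1, 0] k i ^ 2) • B i) 1 x)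
        + w 0 1 • Pr 0 (Fam k (fun i => -(fr ![0, 1] k i ^ 2) • A i)
          (fun i => -(fr ![0, 1] k i ^ 2) • B i) 1 x)
        + w 1 0 • Pr 1 (Fam k (fun i => -(fr ![1, 0] k i ^ 2) • A i)
          (fun i => -(fr ![1, 0] k i ^ 2) • B i) 1 x)
        + w 1 1 • Pr 1 (Fam k (fun i => -(fr ![0, 1] k i ^ 2) • A i)
          (fun i => -(fr ![0, 1] k i ^ 2) • B i) 1 x) := by
    intro x
    rw [Pr_Fam, Pr_Fam, Pr_Fam, Pr_Fam]
    simp only [Fam_one]
    rw [Finset.smul_sum, Finset.smul_sum, Finset.smul_sum, Finset.smul_sum,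
      ← Finset.sum_add_distrib, ← Finset.sum_add_distrib, ← Finset.sum_add_distrib]
    refine Finset.sum_congr rfl fun i _ => ?_
    ext r l
    fin_cases r <;>
    · simp [tm, mw, sw, Pr_apply']
      ring
  simp only [hsum, map_add, map_smul, smul_eq_mul]
  rw [int4' (i2 _ _ _) (i2 _ _ _) (i2 _ _ _) (i2 _ _ _)]
  have p00 := eq_neg_of_add_eq_zero_right q00
  have p01 := eq_neg_of_add_eq_zero_right q01
  have p10 := eq_neg_of_add_eq_zero_right q10
  have p11 := eq_neg_of_add_eq_zero_right q11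
  rw [p00, p01, p10, p11]
  linarith

/-- the coefficients at time `t` -/
noncomputable def dw (w : Fin 2 → V) (k : ι → Fin 2 → ℤ) (t : ℝ) (c : ι → V) : ι → V :=
  fun i r => Real.exp (-(t * sw w k r i)) * c i r

omit [Fintype ι] in
theorem grk_dw (w : Fin 2 → V) (k : ι → Fin 2 → ℤ) (t : ℝ) (c : ι → V) :
    grk k (dw w k t c) = fun i r l => Real.exp (-(t * sw w k r i)) * grk k c i r l := by
  funext i r l
  simp only [grk, dw]
  ring

theorem hasDerivAt_dw (w : Fin 2 → V) (k : ι → Fin 2 → ℤ) (c d : ι → V) (t : ℝ) (x : V) :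
    HasDerivAt (fun t => Fam k (grk k (dw w k t c)) (grk k (dw w k t d)) 1 x)
      (Fam k (mw w k (grk k (dw w k t c))) (mw w k (grk k (dw w k t d))) 1 x) t := by
  simp only [Fam_one]
  refine HasDerivAt.fun_sum fun i _ => ?_
  rw [hasDerivAt_pi]
  intro r
  rw [hasDerivAt_pi]
  intro l
  have h0 : HasDerivAt (fun t : ℝ => Real.exp (-(t * sw w k r i)))
      (Real.exp (-(t * sw w k r i)) * (-(1 * sw w k r i))) t :=
    (((hasDerivAt_id t).mul_const (sw w k r i)).neg).exp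
  have h1 := (h0.mul_const (grk k c i r l)).const_mul (Real.cos (ph (k i) x))
  have h2 := (h0.mul_const (grk k d i r l)).const_mul (Real.sin (ph (k i) x))
  have h3 := h1.add h2
  have e1 : (fun t => tm (k i) (grk k (dw w k t c) i) (grk k (dw w k t d) i) x r l)
      = fun t => Real.cos (ph (k i) x) * (Real.exp (-(t * sw w k r i)) * grk k c i r l)
        + Real.sin (ph (k i) x) * (Real.exp (-(t * sw w k r i)) * grk k d i r l) := by
    funext t
    simp only [tm, grk_dw, Pi.add_apply, Pi.smul_apply, smul_eq_mul]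
  rw [e1]
  refine h3.congr_deriv ?_
  simp only [tm, mw, grk_dw, Pi.add_apply, Pi.smul_apply, smul_eq_mul]
  ring

omit [Fintype ι] in
theorem continuous_grk_dw (w : Fin 2 → V) (k : ι → Fin 2 → ℤ) (c : ι → V) (i : ι) :
    Continuous (fun t => grk k (dw w k t c) i) := by
  simp only [grk_dw]
  refine continuous_pi fun r => continuous_pi fun l => ?_
  fun_prop

theorem flow_leW {W : E → ℝ} (hW : ContDiff ℝ 2 W) (w : Fin 2 → V)
    (Ω : E →L[ℝ] E →L[ℝ] ℝ)
    (hcond : WCert W w Ω) (F₀ : E) (k : ι → Fin 2 → ℤ) (c d : ι → V) {T : ℝ} (hT : 0 ≤ T) :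
    ∫ x in Icc (0 : V) 1, W (F₀ + Fam k (grk k (dw w k T c)) (grk k (dw w k T d)) 1 x)
      ≤ ∫ x in Icc (0 : V) 1, W (F₀ + Fam k (grk k c) (grk k d) 1 x) := by
  have hP1 : ContDiff ℝ 1 (fderiv ℝ W) := hW.fderiv_right (by norm_num)
  have h00 : ∀ (c : ι → V), dw w k 0 c = c := by
    intro c
    funext i r
    simp [dw]
  have hFc : Continuous (fun p : ℝ × V =>
      F₀ + Fam k (grk k (dw w k p.1 c)) (grk k (dw w k p.1 d)) 1 p.2) :=
    continuous_const.add (continuous_Fam_coef k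
      (fun i => (continuous_grk_dw w k c i).comp continuous_fst)
      (fun i => (continuous_grk_dw w k d i).comp continuous_fst) continuous_snd)
  have hsm : ∀ (c : ι → V) (i : ι),
      Continuous (fun p : ℝ × V => mw w k (grk k (dw w k p.1 c)) i) := by
    intro c i
    refine continuous_pi fun r => continuous_pi fun l => ?_
    have h1 := (continuous_grk_dw w k c i).comp (continuous_fst (X := ℝ) (Y := V))
    have h2 : Continuous (fun p : ℝ × V => grk k (dw w k p.1 c) i r l) :=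
      (continuous_apply l).comp ((continuous_apply r).comp h1)
    exact continuous_const.mul h2
  have hGc : Continuous (fun p : ℝ × V =>
      Fam k (mw w k (grk k (dw w k p.1 c))) (mw w k (grk k (dw w k p.1 d))) 1 p.2) :=
    continuous_Fam_coef k
      (A := fun (p : ℝ × V) i => mw w k (grk k (dw w k p.1 c)) i)
      (B := fun (p : ℝ × V) i => mw w k (grk k (dw w k p.1 d)) i)
      (hsm _) (hsm _) continuous_snd
  have h := fub (fun t x => W (F₀ + Fam k (grk k (dw w k t c)) (grk k (dw w k t d)) 1 x))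
    (fun t x => fderiv ℝ W (F₀ + Fam k (grk k (dw w k t c)) (grk k (dw w k t d)) 1 x)
      (Fam k (mw w k (grk k (dw w k t c))) (mw w k (grk k (dw w k t d))) 1 x))
    (fun t x => ((hW.differentiable (by norm_num) _).hasFDerivAt).comp_hasDerivAt t
      ((hasDerivAt_dw w k c d t x).const_add F₀))
    (hW.continuous.comp hFc) ((hP1.continuous.comp hFc).clm_apply hGc)
    (fun t => stepW hW w Ω hcond F₀ k _ _) hT
  simpa only [h00] using h

omit [Fintype ι] in
theorem sw_pos {w : Fin 2 → V} (hw : ∀ r j, 0 < w r j) (k : ι → Fin 2 → ℤ) (r : Fin 2) (i : ι)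
    (hk : k i ≠ 0) : 0 < sw w k r i := by
  have hcr : cr (![1, 0] : V) ![0, 1] ≠ 0 := by simp [cr]
  have h := fq_pos hcr k i hk
  unfold fq at h
  unfold sw
  have h0 := hw r 0
  have h1 := hw r 1
  rcases (sq_nonneg (fr ![1, 0] k i)).eq_or_lt with h2 | h2
  · have h3 : 0 < fr ![0, 1] k i ^ 2 := by linarith
    have h4 := mul_pos h1 h3
    have h5 : 0 ≤ w r 0 * fr ![1, 0] k i ^ 2 := by positivity
    linarith
  · have h4 := mul_pos h0 h2
    have h5 : 0 ≤ w r 1 * fr ![0, 1] k i ^ 2 := by positivity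
    linarith

omit [Fintype ι] in
theorem sw_nonneg {w : Fin 2 → V} (hw : ∀ r j, 0 < w r j) (k : ι → Fin 2 → ℤ) (r : Fin 2)
    (i : ι) : 0 ≤ sw w k r i := by
  unfold sw
  have h0 := (hw r 0).le
  have h1 := (hw r 1).le
  positivity

theorem limit_zeroW {W : E → ℝ} (hW : Continuous W) {w : Fin 2 → V} (hw : ∀ r j, 0 < w r j)
    (F₀ : E) (k : ι → Fin 2 → ℤ) (c d : ι → V) :
    Tendsto (fun n : ℕ => ∫ x in Icc (0 : V) 1,
      W (F₀ + Fam k (grk k (dw w k n c)) (grk k (dw w k n d)) 1 x)) atTop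
      (𝓝 (W F₀)) := by
  have hle : ∀ (c : ι → V) (n : ℕ) (i : ι), ‖grk k (dw w k n c) i‖ ≤ ‖grk k c i‖ := by
    intro c n i
    rw [grk_dw]
    refine (pi_norm_le_iff_of_nonneg (norm_nonneg _)).2 fun r => ?_
    refine (pi_norm_le_iff_of_nonneg (norm_nonneg _)).2 fun l => ?_
    rw [norm_mul, Real.norm_eq_abs, abs_of_pos (Real.exp_pos _)]
    refine (mul_le_of_le_one_left (norm_nonneg _) ?_).trans
      ((norm_le_pi_norm _ l).trans (norm_le_pi_norm _ r))
    rw [Real.exp_le_one_iff]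
    have : 0 ≤ (n : ℝ) * sw w k r i := mul_nonneg (Nat.cast_nonneg n) (sw_nonneg hw k r i)
    linarith
  have hlim : ∀ (c : ι → V) (i : ι), Tendsto (fun n : ℕ => grk k (dw w k n c) i) atTop
      (𝓝 0) := by
    intro c i
    simp only [grk_dw]
    rw [tendsto_pi_nhds]
    intro r
    rw [tendsto_pi_nhds]
    intro l
    by_cases hk : k i = 0
    · have h0 : grk k c i r l = 0 := by
        simp [grk, hk]
      simp [h0]
    · have h1 : Tendsto (fun n : ℕ => Real.exp (-((n : ℝ) * sw w k r i))) atTop (𝓝 0) := by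
        refine Real.tendsto_exp_neg_atTop_nhds_zero.comp ?_
        refine Tendsto.atTop_mul_const (sw_pos hw k r i hk) ?_
        exact tendsto_natCast_atTop_atTop
      have h2 := h1.mul_const (grk k c i r l)
      simpa using h2
  set C : ℝ := ∑ i, (‖grk k c i‖ + ‖grk k d i‖) with hC
  have hAC : ∀ i, ‖grk k c i‖ ≤ C := by
    intro i
    have := Finset.single_le_sum (f := fun i => ‖grk k c i‖ + ‖grk k d i‖)
      (fun j _ => by positivity) (Finset.mem_univ i)
    linarith [norm_nonneg (grk k d i)]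
  have hBC : ∀ i, ‖grk k d i‖ ≤ C := by
    intro i
    have := Finset.single_le_sum (f := fun i => ‖grk k c i‖ + ‖grk k d i‖)
      (fun j _ => by positivity) (Finset.mem_univ i)
    linarith [norm_nonneg (grk k c i)]
  have hbd : ∀ (n : ℕ) x, ‖F₀ + Fam k (grk k (dw w k n c)) (grk k (dw w k n d)) 1 x‖
      ≤ ‖F₀‖ + Fintype.card ι * (2 * C) := by
    intro n x
    refine (norm_add_le _ _).trans (add_le_add le_rfl ?_)
    exact E_bdd k (fun i => (hle c n i).trans (hAC i)) (fun i => (hle d n i).trans (hBC i)) x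
  obtain ⟨K, hK⟩ := (isCompact_closedBall (0 : E)
    (‖F₀‖ + Fintype.card ι * (2 * C))).exists_bound_of_continuousOn hW.continuousOn
  have hprob := volume_cube'
  have e0 : W F₀ = ∫ x in Icc (0 : V) 1, W F₀ := by
    rw [integral_const]
    simp
  rw [e0]
  refine tendsto_integral_of_dominated_convergence (fun _ => K) (fun n => ?_) ?_ (fun n => ?_) ?_
  · exact (hW.comp (continuous_const.add (continuous_Fam k _ _ 1))).aestronglyMeasurable
  · exact continuous_const.integrableOn_Icc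
  · refine Eventually.of_forall fun x => ?_
    refine hK _ ?_
    rw [mem_closedBall_zero_iff]
    exact hbd n x
  · refine Eventually.of_forall fun x => ?_
    refine (hW.tendsto _).comp ?_
    have h3 : Tendsto (fun n : ℕ => Fam k (grk k (dw w k n c)) (grk k (dw w k n d)) 1 x)
        atTop (𝓝 0) := by
      simp only [Fam_one]
      have : (0 : E) = ∑ i : ι, (0 : E) := by simp
      rw [this]
      refine tendsto_finsetSum _ fun i _ => ?_
      unfold tm
      have := ((hlim c i).const_smul (Real.cos (ph (k i) x))).add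
        ((hlim d i).const_smul (Real.sin (ph (k i) x)))
      simpa using this
    simpa using h3.const_add F₀

/-- **Functions of class `C²` with a certificate for a componentwise heat flow are
quasiconvex.** -/
theorem wcert_main {W : E → ℝ} (hW : ContDiff ℝ 2 W) {w : Fin 2 → V} (hw : ∀ r j, 0 < w r j)
    (Ω : E →L[ℝ] E →L[ℝ] ℝ)
    (hcond : WCert W w Ω) : QCtrig W := by
  intro ι _ F₀ k c d
  refine le_of_tendsto (limit_zeroW hW.continuous hw F₀ k c d)
    (Eventually.of_forall fun n => ?_)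
  exact flow_leW hW w Ω hcond F₀ k c d (Nat.cast_nonneg n)

end fam

end Pool.Agent.Helper95.MQ
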