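import Pool.Agent.Helper188.Morrey.Basic

/-!
# Functions which are bilinear on the cells of a rectangular grid
-/

set_option autoImplicit false

open Set Filter Topology Matrix

namespace Pool.Agent.Helper95.MQ

/-- gluing of Lipschitz bounds -/
theorem lip_of_pw {a : ℤ → ℝ} (hm : StrictMono a)
    (hcov : ∀ x : ℝ, ∃ i : ℤ, x ∈ Icc (a i) (a (i + 1))) {φ : ℝ → ℝ} {K : ℝ}
    (h : ∀ i : ℤ, ∀ x ∈ Icc (a i) (a (i + 1)), ∀ y ∈ Icc (a i) (a (i + 1)),
      |φ y - φ x| ≤ K * |y - x|) (x y : ℝ) : |φ y - φ x| ≤ K * |y - x| := by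
  have key : ∀ i j : ℤ, i ≤ j → ∀ x ∈ Icc (a i) (a (i + 1)), ∀ y ∈ Icc (a j) (a (j + 1)),
      |φ y - φ x| ≤ K * |y - x| := by
    intro i j hij
    induction j, hij using Int.le_induction with
    | base => exact h i
    | succ j hij ih =>
      intro x hx y hy
      have h1 := ih x hx (a (j + 1)) ⟨(hm.monotone (by omega)), le_rfl⟩
      have h2 := h (j + 1) (a (j + 1)) ⟨le_rfl, hm.monotone (by omega)⟩ y hy
      have h3 : x ≤ a (j + 1) := hx.2.trans (hm.monotone (by omega))
      have h4 : a (j + 1) ≤ y := hy.1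
      rw [abs_of_nonneg (by linarith : 0 ≤ a (j + 1) - x)] at h1
      rw [abs_of_nonneg (by linarith : 0 ≤ y - a (j + 1))] at h2
      rw [abs_of_nonneg (by linarith : 0 ≤ y - x)]
      have h5 : φ y - φ x = (φ y - φ (a (j + 1))) + (φ (a (j + 1)) - φ x) := by ring
      rw [h5]
      refine (abs_add_le _ _).trans ?_
      linarith
  obtain ⟨i, hi⟩ := hcov x
  obtain ⟨j, hj⟩ := hcov y
  rcases le_total i j with hij | hij
  · exact key i j hij x hi y hj
  · have := key j i hij y hj x hi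
    rwa [abs_sub_comm, abs_sub_comm x y] at this

/-- the slopes of a piecewise affine function increase if it is convex up to a quadratic term -/
theorem slopes {a : ℤ → ℝ} (hm : StrictMono a) {f : ℝ → ℝ} {A B : ℤ → ℝ}
    (hf : ∀ i : ℤ, ∀ x ∈ Icc (a i) (a (i + 1)), f x = A i + B i * x) {κ : ℝ}
    (hc : ConvexOn ℝ univ fun x => f x + κ * x ^ 2) (i : ℤ) : B i ≤ B (i + 1) := by
  by_contra hlt
  push Not at hlt
  have l1 : a i < a (i + 1) := hm (by omega)
  have l2 : a (i + 1) < a (i + 1 + 1) := hm (by omega)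
  set z := a (i + 1) with hz
  set d := B i - B (i + 1) with hd
  have hd0 : 0 < d := by linarith
  obtain ⟨ε, hε0, hε1, hε2, hε3⟩ : ∃ ε : ℝ, 0 < ε ∧ ε ≤ z - a i ∧ ε ≤ a (i + 1 + 1) - z ∧
      ε * (2 * (|κ| + 1)) ≤ d := by
    refine ⟨min (min (z - a i) (a (i + 1 + 1) - z)) (d / (2 * (|κ| + 1))), ?_, ?_, ?_, ?_⟩
    · refine lt_min (lt_min (by linarith) (by linarith)) (by positivity)
    · exact (min_le_left _ _).trans (min_le_left _ _)
    · exact (min_le_left _ _).trans (min_le_right _ _)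
    · have h := min_le_right (min (z - a i) (a (i + 1 + 1) - z)) (d / (2 * (|κ| + 1)))
      rwa [le_div_iff₀ (by positivity)] at h
  have h1 := hc.2 (mem_univ (z - ε)) (mem_univ (z + ε)) (show (0 : ℝ) ≤ 1 / 2 by norm_num)
    (show (0 : ℝ) ≤ 1 / 2 by norm_num) (by norm_num)
  have e1 : (1 / 2 : ℝ) • (z - ε) + (1 / 2 : ℝ) • (z + ε) = z := by
    simp only [smul_eq_mul]; ring
  rw [e1] at h1
  simp only [smul_eq_mul] at h1
  have f1 := hf i (z - ε) ⟨by linarith, by rw [← hz]; linarith⟩
  have f2 := hf i z ⟨by linarith, by rw [← hz]⟩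
  have f3 := hf (i + 1) z ⟨by rw [← hz], by linarith⟩
  have f4 := hf (i + 1) (z + ε) ⟨by rw [← hz]; linarith, by linarith⟩
  have h2 : 0 ≤ - d * ε + 2 * κ * ε ^ 2 := by
    rw [f1, f4] at h1
    have k1 : A i + B i * (z - ε) = f z - B i * ε := by rw [f2]; ring
    have k2 : A (i + 1) + B (i + 1) * (z + ε) = f z + B (i + 1) * ε := by rw [f3]; ring
    rw [k1, k2] at h1
    rw [hd]
    nlinarith
  have h3 : κ * ε < (|κ| + 1) * ε := by
    have := le_abs_self κ
    nlinarith
  nlinarith

/-- a piecewise affine function with increasing slopes is convex -/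
theorem convex_of_pw {a : ℤ → ℝ} (hm : StrictMono a)
    (hcov : ∀ x : ℝ, ∃ i : ℤ, x ∈ Icc (a i) (a (i + 1))) {f : ℝ → ℝ} {A B : ℤ → ℝ}
    (hf : ∀ i : ℤ, ∀ x ∈ Icc (a i) (a (i + 1)), f x = A i + B i * x)
    (hB : ∀ i, B i ≤ B (i + 1)) : ConvexOn ℝ univ f := by
  have node : ∀ i, A i + B i * a (i + 1) = A (i + 1) + B (i + 1) * a (i + 1) := by
    intro i
    have l1 : a i < a (i + 1) := hm (by omega)
    have l2 : a (i + 1) < a (i + 1 + 1) := hm (by omega)
    rw [← hf i (a (i + 1)) ⟨l1.le, le_rfl⟩, ← hf (i + 1) (a (i + 1)) ⟨le_rfl, l2.le⟩]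
  have up : ∀ i j : ℤ, i ≤ j → ∀ x, a j ≤ x → A i + B i * x ≤ A j + B j * x := by
    intro i j hij
    induction j, hij using Int.le_induction with
    | base => exact fun x _ => le_rfl
    | succ j hij ih =>
      intro x hx
      have l1 : a j < a (j + 1) := hm (by omega)
      have h1 := ih x (by linarith)
      have h2 := node j
      have h3 := mul_nonneg (sub_nonneg.2 (hB j)) (sub_nonneg.2 hx)
      nlinarith
  have down : ∀ i j : ℤ, j ≤ i → ∀ x, x ≤ a (j + 1) → A i + B i * x ≤ A j + B j * x := by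
    intro i j hij
    induction j, hij using Int.le_induction_down with
    | base => exact fun x _ => le_rfl
    | pred j hij ih =>
      intro x hx
      have l1 : a j < a (j + 1) := hm (by omega)
      have e : j - 1 + 1 = j := by ring
      rw [e] at hx
      have h1 := ih x (by linarith)
      have h2 := node (j - 1)
      rw [e] at h2
      have h4 := hB (j - 1)
      rw [e] at h4
      have h3 := mul_nonneg (sub_nonneg.2 h4) (sub_nonneg.2 hx)
      nlinarith
  have supp : ∀ (i : ℤ) (x : ℝ), A i + B i * x ≤ f x := by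
    intro i x
    obtain ⟨j, hj⟩ := hcov x
    rw [hf j x hj]
    rcases le_total i j with hij | hij
    · exact up i j hij x hj.1
    · exact down i j hij x hj.2
  refine ⟨convex_univ, fun x _ y _ s t hs ht hst => ?_⟩
  obtain ⟨i, hi⟩ := hcov (s • x + t • y)
  rw [hf i _ hi]
  have h1 := mul_le_mul_of_nonneg_left (supp i x) hs
  have h2 := mul_le_mul_of_nonneg_left (supp i y) ht
  simp only [smul_eq_mul]
  have e : A i + B i * (s * x + t * y) = s * (A i + B i * x) + t * (A i + B i * y) := by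
    have : A i = (s + t) * A i := by rw [hst, one_mul]
    nlinarith
  rw [e]
  linarith

end Pool.Agent.Helper95.MQ
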