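import Pool.Agent.Helper95.MQ.Sep
import Pool.Agent.Helper27.MQ.ConfMain

/-!
# Separately convex functions of the diagonal with bounded mixed differences
-/

set_option autoImplicit false

open MeasureTheory Set Filter Topology Matrix

namespace Pool.Agent.Helper95.MQ

open Pool.Agent.W779.Morrey hiding en en_apply
open Pool.Agent.N555.MQ Pool.Agent.Helper27.MQ

/-- the mollification preserves the bound of the mixed differences -/
theorem hm_mix {g : V → ℝ} (hc : Continuous g) {w z : V} {q : ℝ}
    (hh : ∀ v : V, |g (v + w + z) - g (v + w) - g (v + z) + g v| ≤ q) (n : ℕ) (v : V) :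
    |hm g n (v + w + z) - hm g n (v + w) - hm g n (v + z) + hm g n v| ≤ q := by
  have h1 : ∫ s, (bmp n).normed (volume : Measure V) s * q = q := by
    rw [integral_mul_const, (bmp n).integral_normed, one_mul]
  have i0 := hm_int hc n v
  have i1 := hm_int hc n (v + w)
  have i2 := hm_int hc n (v + z)
  have i3 := hm_int hc n (v + w + z)
  have i31 : Integrable (fun s => (bmp n).normed (volume : Measure V) s * g (v + w + z - s)
      - (bmp n).normed (volume : Measure V) s * g (v + w - s)) := i3.sub i1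
  have i312 : Integrable (fun s => (bmp n).normed (volume : Measure V) s * g (v + w + z - s)
      - (bmp n).normed (volume : Measure V) s * g (v + w - s)
      - (bmp n).normed (volume : Measure V) s * g (v + z - s)) := i31.sub i2
  have e : hm g n (v + w + z) - hm g n (v + w) - hm g n (v + z) + hm g n v
      = ∫ s, ((bmp n).normed (volume : Measure V) s * g (v + w + z - s)
      - (bmp n).normed (volume : Measure V) s * g (v + w - s)
      - (bmp n).normed (volume : Measure V) s * g (v + z - s)
      + (bmp n).normed (volume : Measure V) s * g (v - s)) := by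
    rw [integral_add i312 i0, integral_sub i31 i2, integral_sub i3 i1]
    rfl
  rw [e, ← Real.norm_eq_abs]
  refine (norm_integral_le_integral_norm _).trans ?_
  rw [← h1]
  refine integral_mono (i312.add i0).norm ((bmp n).integrable_normed.mul_const q) fun s => ?_
  have h2 := hh (v - s)
  have e1 : v - s + w + z = v + w + z - s := by abel
  have e2 : v - s + w = v + w - s := by abel
  have e3 : v - s + z = v + z - s := by abel
  rw [e1, e2, e3] at h2
  have h3 := mul_le_mul_of_nonneg_left h2 ((bmp n).nonneg_normed (μ := (volume : Measure V)) s)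
  simp only
  have e4 : (bmp n).normed (volume : Measure V) s * g (v + w + z - s)
      - (bmp n).normed (volume : Measure V) s * g (v + w - s)
      - (bmp n).normed (volume : Measure V) s * g (v + z - s)
      + (bmp n).normed (volume : Measure V) s * g (v - s)
      = (bmp n).normed (volume : Measure V) s * (g (v + w + z - s) - g (v + w - s)
        - g (v + z - s) + g (v - s)) := by ring
  rw [e4, norm_mul, Real.norm_eq_abs, Real.norm_eq_abs,
    abs_of_nonneg ((bmp n).nonneg_normed s)]
  exact h3

/-- bounded mixed differences give a bounded mixed derivative -/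
theorem mixed_bound {f : V → ℝ} (hf : ContDiff ℝ 2 f) {M : ℝ} (hM : 0 ≤ M)
    (hmix : ∀ (v : V) (s t : ℝ),
      |f (v + s • e0 + t • e1) - f (v + s • e0) - f (v + t • e1) + f v| ≤ M * |s * t|) (v : V) :
    |fderiv ℝ (fderiv ℝ f) v e0 e1| ≤ M := by
  have hP1 : ContDiff ℝ 1 (fderiv ℝ f) := hf.fderiv_right (by norm_num)
  -- the first derivative
  have h1 : ∀ s : ℝ, |fderiv ℝ f (v + s • e0) e1 - fderiv ℝ f v e1| ≤ M * |s| := by
    intro s
    have d1 := (line_deriv' hf (v + s • e0) e1 0).1
    have d2 := (line_deriv' hf v e1 0).1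
    rw [zero_smul, add_zero] at d1 d2
    have d3 := d1.sub d2
    have h := d3.le_of_lip' (C := M * |s|) (by positivity) (Eventually.of_forall fun t => by
      have h0 := hmix v s t
      simp only [Pi.sub_apply, zero_smul, add_zero, sub_zero]
      rw [Real.norm_eq_abs, Real.norm_eq_abs]
      rw [abs_mul, ← mul_assoc] at h0
      refine le_trans (le_of_eq ?_) h0
      congr 1
      ring)
    rwa [Real.norm_eq_abs] at h
  -- the second derivative
  have hl : HasDerivAt (fun s : ℝ => v + s • e0) e0 0 := by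
    have h := ((hasDerivAt_id (0 : ℝ)).smul_const e0).const_add v
    simpa using h
  have h2 : HasDerivAt (fun s : ℝ => fderiv ℝ f (v + s • e0))
      (fderiv ℝ (fderiv ℝ f) v e0) 0 := by
    have h3 : HasFDerivAt (fderiv ℝ f) (fderiv ℝ (fderiv ℝ f) v) (v + (0 : ℝ) • e0) := by
      rw [zero_smul, add_zero]
      exact (hP1.differentiable (by norm_num) _).hasFDerivAt
    exact h3.comp_hasDerivAt 0 hl
  have h4 := h2.clm_apply (hasDerivAt_const (0 : ℝ) e1)
  simp only [zero_smul, add_zero, map_zero] at h4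
  have h := h4.le_of_lip' (C := M) hM (Eventually.of_forall fun s => by
    have h0 := h1 s
    simp only [zero_smul, add_zero, sub_zero]
    rw [Real.norm_eq_abs, Real.norm_eq_abs]
    exact h0)
  rwa [Real.norm_eq_abs] at h

/-- **The theorem on separately convex functions of the diagonal.** -/
theorem sep_trig {g : V → ℝ} (hc : Continuous g) {M a b p q : ℝ} (ha : 0 ≤ a) (hb : 0 ≤ b)
    (hp : 0 ≤ p) (hq : 0 ≤ q)
    (hsep : ∀ (r : Fin 2) (v : V) (s t : ℝ), 0 ≤ t → t ≤ 1 →
      g (v + t • (s • Pi.single r 1)) ≤ (1 - t) * g v + t * g (v + s • Pi.single r 1))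
    (hmix : ∀ (v : V) (s t : ℝ),
      |g (v + s • e0 + t • e1) - g (v + s • e0) - g (v + t • e1) + g v| ≤ M * |s * t|)
    (hM : M ^ 4 ≤ 256 * (a * b * p * q)) :
    QCtrig (fun F : E => g (dgL F) + QB a b p q F F) := by
  have hM0 : 0 ≤ M := by
    have h := (abs_nonneg _).trans (hmix 0 1 1)
    simpa using h
  refine QCtrig_limit (Wn := fun n F => hm g n (dgL F)
    + QB (a + 1 / ((n : ℝ) + 1)) (b + 1 / ((n : ℝ) + 1)) (p + 1 / ((n : ℝ) + 1))
      (q + 1 / ((n : ℝ) + 1)) F F) (fun n => ?_) (fun n => ?_)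
    (fun F => ?_) (fun R => ?_)
  · have hsm := hm_contDiff hc n
    have hδ : (0 : ℝ) < 1 / ((n : ℝ) + 1) := by positivity
    set δ := 1 / ((n : ℝ) + 1)
    have hsec : ∀ (r : Fin 2) (v : V),
        0 ≤ fderiv ℝ (fderiv ℝ (hm g n)) v (Pi.single r 1) (Pi.single r 1) := by
      intro r v
      refine second_nonneg hsm v (Pi.single r 1) fun s u t ht0 ht1 => ?_
      have h := hm_ineq hc (w := u • Pi.single r 1) (t := t) (q := 0)
        (fun v => by rw [add_zero]; exact hsep r v u t ht0 ht1) n (v + s • Pi.single r 1)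
      linarith
    refine sep_smooth hsm (by linarith) (by linarith) (by linarith) (by linarith) (hsec 0)
      (hsec 1) (mixed_bound hsm hM0 fun v s t => hm_mix hc (fun v => hmix v s t) n v) ?_
    refine hM.trans_lt ?_
    have s1 : a * b < (a + δ) * (b + δ) := by nlinarith [mul_nonneg ha hδ.le, mul_nonneg hb hδ.le]
    have s2 : p * q < (p + δ) * (q + δ) := by nlinarith [mul_nonneg hp hδ.le, mul_nonneg hq hδ.le]
    have s3 : (a * b) * (p * q) < ((a + δ) * (b + δ)) * ((p + δ) * (q + δ)) :=
      mul_lt_mul'' s1 s2 (by positivity) (by positivity)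
    nlinarith
  · exact (contDiff_WL (hm_contDiff hc n) dgL _).continuous
  · refine (hm_tendsto hc (dgL F)).add ?_
    simp only [QB_apply]
    have h1 : Tendsto (fun n : ℕ => 1 / ((n : ℝ) + 1)) atTop (𝓝 0) :=
      tendsto_one_div_add_atTop_nhds_zero_nat
    have h2 : ∀ a : ℝ, Tendsto (fun n : ℕ => a + 1 / ((n : ℝ) + 1)) atTop (𝓝 a) := by
      intro a
      have := h1.const_add a
      rwa [add_zero] at this
    exact ((((h2 a).mul_const _).add ((h2 b).mul_const _)).add ((h2 p).mul_const _)).add
      ((h2 q).mul_const _)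
  · obtain ⟨C1, hC1⟩ := (isCompact_closedBall (0 : V)
      (‖dgL‖ * R + 1)).exists_bound_of_continuousOn hc.continuousOn
    have hBc : ∀ a b p q : ℝ, Continuous (fun F : E => QB a b p q F F) :=
      fun a b p q => (QB a b p q).continuous.clm_apply continuous_id
    obtain ⟨C2, hC2⟩ := (isCompact_closedBall (0 : E) R).exists_bound_of_continuousOn
      (hBc a b p q).continuousOn
    obtain ⟨C3, hC3⟩ := (isCompact_closedBall (0 : E) R).exists_bound_of_continuousOn
      (hBc 1 1 1 1).continuousOn
    refine ⟨C1 + (C2 + C3), fun n F hF => ?_⟩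
    have hcF : ‖dgL F‖ ≤ ‖dgL‖ * R :=
      (dgL.le_opNorm F).trans (mul_le_mul_of_nonneg_left hF (norm_nonneg _))
    have b1 : |hm g n (dgL F)| ≤ C1 := hm_bound hc (fun x hx => by
      have := hC1 x (by rwa [mem_closedBall_zero_iff])
      rwa [Real.norm_eq_abs] at this) n hcF
    have b2 : |QB a b p q F F| ≤ C2 := by
      have := hC2 F (by rwa [mem_closedBall_zero_iff])
      rwa [Real.norm_eq_abs] at this
    have b3 : |QB 1 1 1 1 F F| ≤ C3 := by
      have := hC3 F (by rwa [mem_closedBall_zero_iff])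
      rwa [Real.norm_eq_abs] at this
    have hδ : (0 : ℝ) < 1 / ((n : ℝ) + 1) := by positivity
    have hδ1 : 1 / ((n : ℝ) + 1) ≤ 1 := by
      rw [div_le_one (by positivity)]
      have : (0 : ℝ) ≤ n := Nat.cast_nonneg n
      linarith
    set δ := 1 / ((n : ℝ) + 1)
    have e : QB (a + δ) (b + δ) (p + δ) (q + δ) F F = QB a b p q F F + δ * QB 1 1 1 1 F F := by
      simp only [QB_apply]
      ring
    have b4 : |δ * QB 1 1 1 1 F F| ≤ C3 := by
      rw [abs_mul, abs_of_pos hδ]
      have := abs_nonneg (QB 1 1 1 1 F F)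
      nlinarith
    refine (abs_add_le _ _).trans (add_le_add b1 ?_)
    rw [e]
    exact (abs_add_le _ _).trans (add_le_add b2 b4)

/-- **The theorem for matrices.** -/
theorem fin_sep (h : ℝ → ℝ → ℝ) (M a b p q : ℝ) (ha : 0 ≤ a) (hb : 0 ≤ b)
    (hp : 0 ≤ p) (hq : 0 ≤ q) (hx : ∀ y, ConvexOn ℝ univ fun x => h x y)
    (hy : ∀ x, ConvexOn ℝ univ fun y => h x y)
    (hmix : ∀ x y s t, |h (x + s) (y + t) - h (x + s) y - h x (y + t) + h x y| ≤ M * |s * t|)
    (hM : M ^ 4 ≤ 256 * (a * b * p * q)) :
    QC fun F => h (F 0 0) (F 1 1) + (a * F 0 0 ^ 2 + b * F 1 1 ^ 2 + p * F 0 1 ^ 2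
      + q * F 1 0 ^ 2) := by
  set g : V → ℝ := fun v => h (v 0) (v 1) with hg
  have hgc : Continuous g := by
    rw [continuous_iff_continuousAt]
    intro v
    have c0 : Continuous fun x => h x (v 1) := cont_conv (hx (v 1))
    have c1 : Continuous fun y => h (v 0) y := cont_conv (hy (v 0))
    have t0 : Tendsto (fun w : V => w 0) (𝓝 v) (𝓝 (v 0)) := (continuous_apply 0).tendsto v
    have t1 : Tendsto (fun w : V => w 1) (𝓝 v) (𝓝 (v 1)) := (continuous_apply 1).tendsto v
    have u0 : Tendsto (fun w : V => h (w 0) (v 1)) (𝓝 v) (𝓝 (h (v 0) (v 1))) :=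
      (c0.tendsto (v 0)).comp t0
    have u1 : Tendsto (fun w : V => h (v 0) (w 1)) (𝓝 v) (𝓝 (h (v 0) (v 1))) :=
      (c1.tendsto (v 1)).comp t1
    have u2 : Tendsto (fun w : V => M * |(w 0 - v 0) * (w 1 - v 1)|) (𝓝 v) (𝓝 0) := by
      have := (((t0.sub_const (v 0)).mul (t1.sub_const (v 1))).abs).const_mul M
      simpa using this
    have u3 : Tendsto (fun w : V => h (w 0) (w 1) - h (w 0) (v 1) - h (v 0) (w 1) + h (v 0) (v 1))
        (𝓝 v) (𝓝 0) := by
      refine squeeze_zero_norm (fun w => ?_) u2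
      have := hmix (v 0) (v 1) (w 0 - v 0) (w 1 - v 1)
      rw [add_sub_cancel, add_sub_cancel] at this
      rw [Real.norm_eq_abs]
      exact this
    have u4 := ((u3.add u0).add u1).sub_const (h (v 0) (v 1))
    have e1 : (fun w : V => h (w 0) (w 1) - h (w 0) (v 1) - h (v 0) (w 1) + h (v 0) (v 1)
        + h (w 0) (v 1) + h (v 0) (w 1) - h (v 0) (v 1)) = g := by
      funext w
      simp only [hg]
      ring
    have e2 : 0 + h (v 0) (v 1) + h (v 0) (v 1) - h (v 0) (v 1) = g v := by
      simp only [hg]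
      ring
    rw [e1, e2] at u4
    exact u4
  have hsep : ∀ (r : Fin 2) (v : V) (s t : ℝ), 0 ≤ t → t ≤ 1 →
      g (v + t • (s • Pi.single r 1)) ≤ (1 - t) * g v + t * g (v + s • Pi.single r 1) := by
    intro r v s t ht0 ht1
    fin_cases r
    · have h1 := (hx (v 1)).2 (mem_univ (v 0)) (mem_univ (v 0 + s))
        (show 0 ≤ 1 - t by linarith) ht0 (by ring)
      have e : (1 - t) * v 0 + t * (v 0 + s) = v 0 + t * s := by ring
      simp only [smul_eq_mul, e] at h1
      simpa [hg] using h1
    · have h1 := (hy (v 0)).2 (mem_univ (v 1)) (mem_univ (v 1 + s))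
        (show 0 ≤ 1 - t by linarith) ht0 (by ring)
      have e : (1 - t) * v 1 + t * (v 1 + s) = v 1 + t * s := by ring
      simp only [smul_eq_mul, e] at h1
      simpa [hg] using h1
  have h1 := sep_trig hgc ha hb hp hq hsep (M := M) (fun v s t => by
    have := hmix (v 0) (v 1) s t
    simpa [hg, e0, e1] using this) hM
  have e : (fun F : E => h (of F 0 0) (of F 1 1) + (a * of F 0 0 ^ 2 + b * of F 1 1 ^ 2
      + p * of F 0 1 ^ 2 + q * of F 1 0 ^ 2)) = fun F : E => g (dgL F) + QB a b p q F F := by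
    funext F
    rw [QB_apply]
    simp only [hg, dgL_apply, of_apply]
    ring
  refine QC_of_trig ?_ ?_
  · rw [e]
    exact (hgc.comp dgL.continuous).add ((QB a b p q).continuous.clm_apply continuous_id)
  · rw [e]
    exact h1

end Pool.Agent.Helper95.MQ
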