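import Pool.Agent.Helper95.MQ.Flow2
import Pool.Agent.Helper95.MQ.Sep2

/-!
# The sharp certificate
-/

set_option autoImplicit false

open MeasureTheory Set Filter Topology Matrix

namespace Pool.Agent.Helper95.MQ

open Pool.Agent.W779.Morrey hiding en en_apply
open Pool.Agent.N555.MQ Pool.Agent.Helper27.MQ

/-- the null Lagrangians `κ₁ det D²u₀ + κ₂ det D²u₁` -/
noncomputable def NL (κ₁ κ₂ : ℝ) : E →L[ℝ] E →L[ℝ] ℝ :=
  κ₁ • (en 0 0).smulRight (en 0 1) + κ₂ • (en 1 0).smulRight (en 1 1)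

theorem NL_apply (κ₁ κ₂ : ℝ) (F G : E) : NL κ₁ κ₂ F G
    = κ₁ * (F 0 0 * G 0 1) + κ₂ * (F 1 0 * G 1 1) := by
  simp only [NL, FunLike.coe_smul, Pi.smul_apply, _root_.add_apply,
    ContinuousLinearMap.smulRight_apply, en_apply, smul_eq_mul]

/-- the elementary inequality -/
theorem blk {k B x y : ℝ} (hk : 0 ≤ k) (hB : |B| ≤ 2 * k) :
    0 ≤ k * (x ^ 2 + y ^ 2) + B * (x * y) := by
  have h := abs_le.1 hB
  have h1 : 0 ≤ (2 * k - B) * (x - y) ^ 2 := mul_nonneg (by linarith) (sq_nonneg _)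
  have h2 : 0 ≤ (2 * k + B) * (x + y) ^ 2 := mul_nonneg (by linarith) (sq_nonneg _)
  nlinarith

/-- **The sharp certificate.** -/
theorem sep_smooth2 {g : V → ℝ} (hg : ContDiff ℝ 2 g) {s t m n : ℝ} (hs : 0 < s) (ht : 0 < t)
    (hm : 0 < m) (hn : 0 < n) (hlt : m * n < s * t)
    (h00 : ∀ v : V, 0 ≤ fderiv ℝ (fderiv ℝ g) v e0 e0)
    (h11 : ∀ v : V, 0 ≤ fderiv ℝ (fderiv ℝ g) v e1 e1)
    (h01 : ∀ v : V, |fderiv ℝ (fderiv ℝ g) v e0 e1| ≤ 2 * (s * t + m * n)) :
    QCtrig (fun F : E => g (dgL F) + QB (s ^ 2) (t ^ 2) (m ^ 2) (n ^ 2) F F) := by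
  have hβ : 0 < s * t - m * n := by linarith
  refine wcert_main (contDiff_WL hg dgL (QB (s ^ 2) (t ^ 2) (m ^ 2) (n ^ 2)))
    (w := ![![(s * t + 3 * (m * n)) * (s ^ 2 * n * t), (s * t - m * n) * (m * s * t ^ 2)],
      ![(s * t - m * n) * (s ^ 2 * n * t), (s * t + 3 * (m * n)) * (m * s * t ^ 2)]]) ?_
    (NL (-4 * m ^ 2 * (s * t - m * n) * (s ^ 2 * n * t))
      (-4 * n ^ 2 * (s * t - m * n) * (m * s * t ^ 2))) ?_
  · intro r j
    fin_cases r <;> fin_cases j
    · show 0 < (s * t + 3 * (m * n)) * (s ^ 2 * n * t)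
      positivity
    · show 0 < (s * t - m * n) * (m * s * t ^ 2)
      positivity
    · show 0 < (s * t - m * n) * (s ^ 2 * n * t)
      positivity
    · show 0 < (s * t + 3 * (m * n)) * (m * s * t ^ 2)
      positivity
  intro F G₀ G₁ hcomp
  rw [mixed_WL hg, mixed_WL hg, mixed_WL hg, mixed_WL hg]
  set S := fderiv ℝ (fderiv ℝ g) (dgL F) with hS
  have hsym : S e1 e0 = S e0 e1 := by
    have h := (hg.contDiffAt (x := dgL F)).isSymmSndFDerivAt (by simp)
    exact h _ _
  rw [bil_expand S (dgL G₀) (dgL (Pr 0 G₀)), bil_expand S (dgL G₁) (dgL (Pr 0 G₁)),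
    bil_expand S (dgL G₀) (dgL (Pr 1 G₀)), bil_expand S (dgL G₁) (dgL (Pr 1 G₁)), hsym]
  simp only [QB_apply, NL_apply, dgL_apply, Pr_apply']
  have c0 := hcomp 0
  have c1 := hcomp 1
  have A0 := h00 (dgL F)
  have C0 := h11 (dgL F)
  have B0 := h01 (dgL F)
  rw [← hS] at A0 C0 B0
  set A := S e0 e0
  set B := S e0 e1
  set C := S e1 e1
  simp only [if_true, Fin.isValue, one_ne_zero, zero_ne_one, if_false, Matrix.cons_val_zero,
    Matrix.cons_val_one]
  rw [← c0, ← c1]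
  set x := G₀ 0 0
  set u := G₀ 0 1
  set P := G₀ 1 0
  set Q := G₀ 1 1
  set r := G₁ 0 1
  set R := G₁ 1 1
  have b1 := blk (k := s * t + m * n) (x := s * x) (y := t * Q) (by positivity) B0
  have b2 := blk (k := s * t + m * n) (x := s * u) (y := t * R) (by positivity) B0
  have n1 : 0 ≤ A * ((s * t + 3 * (m * n)) * (s ^ 2 * n * t) * x ^ 2
    + (s * t - m * n) * (m * s * t ^ 2) * u ^ 2) := by positivity
  have n2 : 0 ≤ C * ((s * t - m * n) * (s ^ 2 * n * t) * Q ^ 2
    + (s * t + 3 * (m * n)) * (m * s * t ^ 2) * R ^ 2) := by positivity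
  have n3 : 0 ≤ 2 * m * s * (s * t - m * n) * (m * t * r - s * n * x) ^ 2 := by positivity
  have n4 : 0 ≤ 2 * n * t * (s * t - m * n) * (s * n * P - m * t * R) ^ 2 := by positivity
  have n5 : 0 ≤ 2 * n * s * (s * t + m * n)
      * ((s * t + m * n) * ((s * x) ^ 2 + (t * Q) ^ 2) + B * (s * x * (t * Q))) :=
    mul_nonneg (by positivity) b1
  have n6 : 0 ≤ 2 * m * t * (s * t + m * n)
      * ((s * t + m * n) * ((s * u) ^ 2 + (t * R) ^ 2) + B * (s * u * (t * R))) :=
    mul_nonneg (by positivity) b2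
  refine le_of_le_of_eq (add_nonneg (add_nonneg (add_nonneg n1 n2) (add_nonneg n3 n4))
    (add_nonneg n5 n6)) ?_
  ring

/-- **The theorem on separately convex functions of the diagonal, sharp form.** -/
theorem sep_trig2 {g : V → ℝ} (hc : Continuous g) {M a b p q : ℝ} (ha : 0 ≤ a) (hb : 0 ≤ b)
    (hp : 0 ≤ p) (hq : 0 ≤ q) (hle : p * q ≤ a * b)
    (hsep : ∀ (r : Fin 2) (v : V) (s t : ℝ), 0 ≤ t → t ≤ 1 →
      g (v + t • (s • Pi.single r 1)) ≤ (1 - t) * g v + t * g (v + s • Pi.single r 1))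
    (hmix : ∀ (v : V) (s t : ℝ),
      |g (v + s • e0 + t • e1) - g (v + s • e0) - g (v + t • e1) + g v| ≤ M * |s * t|)
    (hM : M ≤ 2 * (Real.sqrt (a * b) + Real.sqrt (p * q))) :
    QCtrig (fun F : E => g (dgL F) + QB a b p q F F) := by
  have hM0 : 0 ≤ M := by
    have h := (abs_nonneg _).trans (hmix 0 1 1)
    simpa using h
  -- the perturbation of the coefficients
  set δ : ℕ → ℝ := fun n => 1 / ((n : ℝ) + 1) with hδ
  set γ : ℕ → ℝ := fun n => (δ n) ^ 2 / (2 * (1 + p + q)) with hγ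
  have hδ0 : ∀ n, 0 < δ n := fun n => by simp only [hδ]; positivity
  have hδ1 : ∀ n, δ n ≤ 1 := fun n => by
    simp only [hδ]
    rw [div_le_one (by positivity)]
    have : (0 : ℝ) ≤ n := Nat.cast_nonneg n
    linarith
  have hγ0 : ∀ n, 0 < γ n := fun n => by
    have := hδ0 n
    simp only [hγ]
    positivity
  have hγe : ∀ n, γ n * (2 * (1 + p + q)) = δ n ^ 2 := fun n => by
    simp only [hγ]
    field_simp
  have hγ1 : ∀ n, γ n ≤ 1 := fun n => by
    have h1 := hγe n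
    have h2 : δ n ^ 2 ≤ 1 := by
      have := hδ0 n
      have := hδ1 n
      nlinarith
    have h3 := hγ0 n
    nlinarith [mul_nonneg h3.le hp, mul_nonneg h3.le hq]
  refine QCtrig_limit (Wn := fun n F => hm g n (dgL F)
    + QB (a + δ n) (b + δ n) (p + γ n) (q + γ n) F F) (fun n => ?_) (fun n => ?_)
    (fun F => ?_) (fun R => ?_)
  · have hsm := hm_contDiff hc n
    have d0 := hδ0 n
    have g0 := hγ0 n
    have hsec : ∀ (r : Fin 2) (v : V),
        0 ≤ fderiv ℝ (fderiv ℝ (hm g n)) v (Pi.single r 1) (Pi.single r 1) := by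
      intro r v
      refine second_nonneg hsm v (Pi.single r 1) fun s u t ht0 ht1 => ?_
      have h := hm_ineq hc (w := u • Pi.single r 1) (t := t) (q := 0)
        (fun v => by rw [add_zero]; exact hsep r v u t ht0 ht1) n (v + s • Pi.single r 1)
      linarith
    have sa : 0 < a + δ n := by linarith
    have sb : 0 < b + δ n := by linarith
    have sp : 0 < p + γ n := by linarith
    have sq' : 0 < q + γ n := by linarith
    have hlt : (p + γ n) * (q + γ n) < (a + δ n) * (b + δ n) := by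
      have h1 := hγe n
      have h2 := hγ1 n
      nlinarith [mul_nonneg ha d0.le, mul_nonneg hb d0.le, mul_nonneg g0.le hp,
        mul_nonneg g0.le hq]
    have hb1 : ∀ v : V, |fderiv ℝ (fderiv ℝ (hm g n)) v e0 e1| ≤ M :=
      mixed_bound hsm hM0 fun v s t => hm_mix hc (fun v => hmix v s t) n v
    have r1 : Real.sqrt (a + δ n) * Real.sqrt (b + δ n) = Real.sqrt ((a + δ n) * (b + δ n)) :=
      (Real.sqrt_mul sa.le _).symm
    have r2 : Real.sqrt (p + γ n) * Real.sqrt (q + γ n) = Real.sqrt ((p + γ n) * (q + γ n)) :=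
      (Real.sqrt_mul sp.le _).symm
    have r3 : Real.sqrt (a * b) ≤ Real.sqrt ((a + δ n) * (b + δ n)) :=
      Real.sqrt_le_sqrt (by nlinarith)
    have r4 : Real.sqrt (p * q) ≤ Real.sqrt ((p + γ n) * (q + γ n)) :=
      Real.sqrt_le_sqrt (by nlinarith)
    have key := sep_smooth2 hsm (Real.sqrt_pos.2 sa) (Real.sqrt_pos.2 sb) (Real.sqrt_pos.2 sp)
      (Real.sqrt_pos.2 sq') (by
        rw [r1, r2]
        exact Real.sqrt_lt_sqrt (by positivity) hlt) (hsec 0) (hsec 1)
      (fun v => (hb1 v).trans (hM.trans (by rw [r1, r2]; linarith)))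
    rw [Real.sq_sqrt sa.le, Real.sq_sqrt sb.le, Real.sq_sqrt sp.le, Real.sq_sqrt sq'.le] at key
    exact key
  · exact (contDiff_WL (hm_contDiff hc n) dgL _).continuous
  · refine (hm_tendsto hc (dgL F)).add ?_
    simp only [QB_apply]
    have h1 : Tendsto δ atTop (𝓝 0) := tendsto_one_div_add_atTop_nhds_zero_nat
    have h1' : Tendsto γ atTop (𝓝 0) := by
      have h3 := (h1.pow 2).div_const (2 * (1 + p + q))
      simpa using h3
    have h2 : ∀ (a : ℝ) (f : ℕ → ℝ), Tendsto f atTop (𝓝 0) →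
        Tendsto (fun n : ℕ => a + f n) atTop (𝓝 a) := by
      intro a f hf
      have := hf.const_add a
      rwa [add_zero] at this
    exact ((((h2 a δ h1).mul_const _).add ((h2 b δ h1).mul_const _)).add
      ((h2 p γ h1').mul_const _)).add ((h2 q γ h1').mul_const _)
  · obtain ⟨C1, hC1⟩ := (isCompact_closedBall (0 : V)
      (‖dgL‖ * R + 1)).exists_bound_of_continuousOn hc.continuousOn
    have hBc : ∀ a b p q : ℝ, Continuous (fun F : E => QB a b p q F F) :=
      fun a b p q => (QB a b p q).continuous.clm_apply continuous_id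
    obtain ⟨C2, hC2⟩ := (isCompact_closedBall (0 : E) R).exists_bound_of_continuousOn
      (hBc (a + 1) (b + 1) (p + 1) (q + 1)).continuousOn
    refine ⟨C1 + C2, fun n F hF => ?_⟩
    have hcF : ‖dgL F‖ ≤ ‖dgL‖ * R :=
      (dgL.le_opNorm F).trans (mul_le_mul_of_nonneg_left hF (norm_nonneg _))
    have b1 : |hm g n (dgL F)| ≤ C1 := hm_bound hc (fun x hx => by
      have := hC1 x (by rwa [mem_closedBall_zero_iff])
      rwa [Real.norm_eq_abs] at this) n hcF
    have b2 : |QB (a + 1) (b + 1) (p + 1) (q + 1) F F| ≤ C2 := by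
      have := hC2 F (by rwa [mem_closedBall_zero_iff])
      rwa [Real.norm_eq_abs] at this
    have b3 : |QB (a + δ n) (b + δ n) (p + γ n) (q + γ n) F F|
        ≤ |QB (a + 1) (b + 1) (p + 1) (q + 1) F F| := by
      have d0 := hδ0 n
      have d1 := hδ1 n
      have g0 := hγ0 n
      have g1 := hγ1 n
      rw [QB_apply, QB_apply]
      have x1 := mul_self_nonneg (F 0 0)
      have x2 := mul_self_nonneg (F 1 1)
      have x3 := mul_self_nonneg (F 0 1)
      have x4 := mul_self_nonneg (F 1 0)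
      have y1 : 0 ≤ (a + δ n) * (F 0 0 * F 0 0) := mul_nonneg (by linarith) x1
      have y2 : 0 ≤ (b + δ n) * (F 1 1 * F 1 1) := mul_nonneg (by linarith) x2
      have y3 : 0 ≤ (p + γ n) * (F 0 1 * F 0 1) := mul_nonneg (by linarith) x3
      have y4 : 0 ≤ (q + γ n) * (F 1 0 * F 1 0) := mul_nonneg (by linarith) x4
      have z1 : 0 ≤ (1 - δ n) * (F 0 0 * F 0 0) := mul_nonneg (by linarith) x1
      have z2 : 0 ≤ (1 - δ n) * (F 1 1 * F 1 1) := mul_nonneg (by linarith) x2
      have z3 : 0 ≤ (1 - γ n) * (F 0 1 * F 0 1) := mul_nonneg (by linarith) x3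
      have z4 : 0 ≤ (1 - γ n) * (F 1 0 * F 1 0) := mul_nonneg (by linarith) x4
      rw [abs_of_nonneg (by linarith), abs_of_nonneg (by linarith)]
      linarith
    exact (abs_add_le _ _).trans (add_le_add b1 (b3.trans b2))

end Pool.Agent.Helper95.MQ
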