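import Pool.Agent.Helper95.MQ.Grid
import Pool.Agent.Helper95.MQ.Sep3

/-!
# Rank-one convexity of functions of the diagonal plus a quadratic form
-/

set_option autoImplicit false

open Set Filter Topology Matrix

namespace Pool.Agent.Helper95.MQ

open Pool.Agent.W779.Morrey hiding en en_apply
open Pool.Agent.N555.MQ Pool.Agent.Helper27.MQ

/-- the function `h(F₀₀, F₁₁) + a F₀₀² + b F₁₁² + p F₀₁² + q F₁₀² + l det F` -/
def En (h : ℝ → ℝ → ℝ) (a b p q l : ℝ) (F : Matrix (Fin 2) (Fin 2) ℝ) : ℝ :=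
  h (F 0 0) (F 1 1) + (a * F 0 0 ^ 2 + b * F 1 1 ^ 2 + p * F 0 1 ^ 2 + q * F 1 0 ^ 2)
    + l * F.det

theorem En_mat (h : ℝ → ℝ → ℝ) (a b p q l x y z w : ℝ) : En h a b p q l !![x, z; w, y]
    = h x y + (a * x ^ 2 + b * y ^ 2 + p * z ^ 2 + q * w ^ 2) + l * (x * y - z * w) := by
  simp [En, Matrix.det_fin_two]

/-- The energy is quasiconvex. -/
theorem fin_sep2 (h : ℝ → ℝ → ℝ) (M a b p q l : ℝ) (ha : 0 ≤ a) (hb : 0 ≤ b)
    (hp : 0 ≤ p) (hq : 0 ≤ q) (hx : ∀ y, ConvexOn ℝ univ fun x => h x y)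
    (hy : ∀ x, ConvexOn ℝ univ fun y => h x y)
    (hmix : ∀ x y s t, |h (x + s) (y + t) - h (x + s) y - h x (y + t) + h x y| ≤ M * |s * t|)
    (hM : (p * q ≤ a * b ∧ M ≤ 2 * (Real.sqrt (a * b) + Real.sqrt (p * q))) ∨
      M ^ 4 ≤ 256 * (a * b * p * q)) : QC (En h a b p q l) := by
  set g : V → ℝ := fun v => h (v 0) (v 1) with hg
  have hgc : Continuous g := by
    rw [continuous_iff_continuousAt]
    intro v
    have c0 : Continuous fun x => h x (v 1) := cont_conv (hx (v 1))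
    have c1 : Continuous fun y => h (v 0) y := cont_conv (hy (v 0))
    have t0 : Tendsto (fun w : V => w 0) (𝓝 v) (𝓝 (v 0)) := (continuous_apply 0).tendsto v
    have t1 : Tendsto (fun w : V => w 1) (𝓝 v) (𝓝 (v 1)) := (continuous_apply 1).tendsto v
    have u0 : Tendsto (fun w : V => h (w 0) (v 1)) (𝓝 v) (𝓝 (h (v 0) (v 1))) :=
      (c0.tendsto (v 0)).comp t0
    have u1 : Tendsto (fun w : V => h (v 0) (w 1)) (𝓝 v) (𝓝 (h (v 0) (v 1))) :=
      (c1.tendsto (v 1)).comp t1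
    have u2 : Tendsto (fun w : V => M * |(w 0 - v 0) * (w 1 - v 1)|) (𝓝 v) (𝓝 0) := by
      have := (((t0.sub_const (v 0)).mul (t1.sub_const (v 1))).abs).const_mul M
      simpa using this
    have u3 : Tendsto (fun w : V => h (w 0) (w 1) - h (w 0) (v 1) - h (v 0) (w 1) + h (v 0) (v 1))
        (𝓝 v) (𝓝 0) := by
      refine squeeze_zero_norm (fun w => ?_) u2
      have := hmix (v 0) (v 1) (w 0 - v 0) (w 1 - v 1)
      rw [add_sub_cancel, add_sub_cancel] at this
      rw [Real.norm_eq_abs]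
      exact this
    have u4 := ((u3.add u0).add u1).sub_const (h (v 0) (v 1))
    have e1 : (fun w : V => h (w 0) (w 1) - h (w 0) (v 1) - h (v 0) (w 1) + h (v 0) (v 1)
        + h (w 0) (v 1) + h (v 0) (w 1) - h (v 0) (v 1)) = g := by
      funext w
      simp only [hg]
      ring
    have e2 : 0 + h (v 0) (v 1) + h (v 0) (v 1) - h (v 0) (v 1) = g v := by
      simp only [hg]
      ring
    rw [e1, e2] at u4
    exact u4
  have hsep : ∀ (r : Fin 2) (v : V) (s t : ℝ), 0 ≤ t → t ≤ 1 →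
      g (v + t • (s • Pi.single r 1)) ≤ (1 - t) * g v + t * g (v + s • Pi.single r 1) := by
    intro r v s t ht0 ht1
    fin_cases r
    · have h1 := (hx (v 1)).2 (mem_univ (v 0)) (mem_univ (v 0 + s))
        (show 0 ≤ 1 - t by linarith) ht0 (by ring)
      have e : (1 - t) * v 0 + t * (v 0 + s) = v 0 + t * s := by ring
      simp only [smul_eq_mul, e] at h1
      simpa [hg] using h1
    · have h1 := (hy (v 0)).2 (mem_univ (v 1)) (mem_univ (v 1 + s))
        (show 0 ≤ 1 - t by linarith) ht0 (by ring)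
      have e : (1 - t) * v 1 + t * (v 1 + s) = v 1 + t * s := by ring
      simp only [smul_eq_mul, e] at h1
      simpa [hg] using h1
  have hmix' : ∀ (v : V) (s t : ℝ),
      |g (v + s • e0 + t • e1) - g (v + s • e0) - g (v + t • e1) + g v| ≤ M * |s * t| := by
    intro v s t
    have := hmix (v 0) (v 1) s t
    simpa [hg, e0, e1] using this
  have h1 : QCtrig (fun F : E => g (dgL F) + QB a b p q F F) := by
    rcases hM with ⟨h2, h3⟩ | h2
    · exact sep_trig2 hgc ha hb hp hq h2 hsep hmix' h3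
    · exact sep_trig hgc ha hb hp hq hsep hmix' h2
  have hc1 : Continuous (fun F : E => g (dgL F) + QB a b p q F F) :=
    (hgc.comp dgL.continuous).add ((QB a b p q).continuous.clm_apply continuous_id)
  have hc2 : Continuous (fun F : E => l * dt F) := continuous_const.mul continuous_dt
  have e : (fun F : E => En h a b p q l (of F)) = fun F : E => (g (dgL F) + QB a b p q F F)
      + l * dt F := by
    funext F
    unfold En
    rw [QB_apply, det_of]
    simp only [hg, dgL_apply, of_apply]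
    ring
  refine QC_of_trig ?_ ?_
  · rw [e]
    exact hc1.add hc2
  · rw [e]
    exact h1.add (QCtrig_dt l) hc1 hc2

/-- Convexity in each variable and the bound of the mixed differences give rank-one convexity. -/
theorem sep_roc (h : ℝ → ℝ → ℝ) (M a b p q l : ℝ) (ha : 0 ≤ a) (hb : 0 ≤ b)
    (hp : 0 ≤ p) (hq : 0 ≤ q) (hx : ∀ y, ConvexOn ℝ univ fun x => h x y)
    (hy : ∀ x, ConvexOn ℝ univ fun y => h x y)
    (hmix : ∀ x y s t, |h (x + s) (y + t) - h (x + s) y - h x (y + t) + h x y| ≤ M * |s * t|)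
    (hM : M ≤ 2 * (Real.sqrt (a * b) + Real.sqrt (p * q))) :
    Helper188.Morrey.RankOneConvex (En h a b p q l) := by
  intro F H hH t ht0 ht1
  have hd := Helper188.Morrey.det_eq_zero_of_rank hH.le
  rw [Matrix.det_fin_two] at hd
  unfold En
  rw [Matrix.det_fin_two, Matrix.det_fin_two, Matrix.det_fin_two]
  simp only [Matrix.add_apply, Matrix.smul_apply, smul_eq_mul]
  set x := F 0 0
  set y := F 1 1
  set z := F 0 1
  set w := F 1 0
  set ξ := H 0 0
  set η := H 1 1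
  set μ := H 0 1
  set ν := H 1 0
  have ex : ∀ x ξ : ℝ, (1 - t) * x + t * (x + ξ) = x + t * ξ := by intro x ξ; ring
  simp only [ex]
  have s1 := (hx (y + t * η)).2 (mem_univ x) (mem_univ (x + ξ)) (show 0 ≤ 1 - t by linarith) ht0
    (by ring)
  have s2 := (hy x).2 (mem_univ y) (mem_univ (y + η)) (show 0 ≤ 1 - t by linarith) ht0
    (by ring)
  have s3 := (hy (x + ξ)).2 (mem_univ y) (mem_univ (y + η)) (show 0 ≤ 1 - t by linarith) ht0
    (by ring)
  simp only [smul_eq_mul, ex] at s1 s2 s3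
  have s4 := (abs_le.1 (hmix x y ξ η)).1
  have tt : 0 ≤ t * (1 - t) := mul_nonneg ht0 (by linarith)
  have s5 : h (x + t * ξ) (y + t * η) ≤ (1 - t) * h x y + t * h (x + ξ) (y + η)
      + t * (1 - t) * (M * |ξ * η|) := by
    have k1 := mul_le_mul_of_nonneg_left s2 (show 0 ≤ 1 - t by linarith)
    have k2 := mul_le_mul_of_nonneg_left s3 ht0
    have k3 := mul_le_mul_of_nonneg_left s4 tt
    nlinarith
  have q1 : 2 * Real.sqrt (a * b) * |ξ * η| ≤ a * ξ ^ 2 + b * η ^ 2 := by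
    rw [Real.sqrt_mul ha, abs_mul]
    have h1 := Real.sq_sqrt ha
    have h2 := Real.sq_sqrt hb
    have h3 := sq_nonneg (Real.sqrt a * |ξ| - Real.sqrt b * |η|)
    have h4 : a * ξ ^ 2 + b * η ^ 2 = Real.sqrt a ^ 2 * |ξ| ^ 2 + Real.sqrt b ^ 2 * |η| ^ 2 := by
      rw [h1, h2, sq_abs, sq_abs]
    rw [h4]
    nlinarith
  have q2 : 2 * Real.sqrt (p * q) * |μ * ν| ≤ p * μ ^ 2 + q * ν ^ 2 := by
    rw [Real.sqrt_mul hp, abs_mul]
    have h1 := Real.sq_sqrt hp
    have h2 := Real.sq_sqrt hq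
    have h3 := sq_nonneg (Real.sqrt p * |μ| - Real.sqrt q * |ν|)
    have h4 : p * μ ^ 2 + q * ν ^ 2 = Real.sqrt p ^ 2 * |μ| ^ 2 + Real.sqrt q ^ 2 * |ν| ^ 2 := by
      rw [h1, h2, sq_abs, sq_abs]
    rw [h4]
    nlinarith
  have e1 : ξ * η = μ * ν := by linarith
  have q3 : M * |ξ * η| ≤ a * ξ ^ 2 + b * η ^ 2 + (p * μ ^ 2 + q * ν ^ 2) := by
    have := mul_le_mul_of_nonneg_right hM (abs_nonneg (ξ * η))
    rw [← e1] at q2
    nlinarith
  have q4 := mul_le_mul_of_nonneg_left q3 tt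
  have e2 : l * ((x + t * ξ) * (y + t * η) - (z + t * μ) * (w + t * ν))
      = (1 - t) * (l * (x * y - z * w)) + t * (l * ((x + ξ) * (y + η) - (z + μ) * (w + ν))) := by
    have : (x + t * ξ) * (y + t * η) - (z + t * μ) * (w + t * ν)
      = (1 - t) * (x * y - z * w) + t * ((x + ξ) * (y + η) - (z + μ) * (w + ν))
        - t * (1 - t) * (ξ * η - μ * ν) := by ring
    rw [this, hd]
    ring
  rw [e2]
  nlinarith

/-- The test of rank-one convexity in the middle of a cell. -/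
theorem cell_test {h : ℝ → ℝ → ℝ} {a b p q l : ℝ}
    (hroc : Helper188.Morrey.RankOneConvex (En h a b p q l)) {x0 x1 y0 y1 α β γ δ : ℝ}
    (hx : x0 < x1) (hy : y0 < y1)
    (hh : ∀ x ∈ Icc x0 x1, ∀ y ∈ Icc y0 y1, h x y = α + β * x + γ * y + δ * (x * y))
    (ξ η μ ν : ℝ) (hd : ξ * η = μ * ν) :
    0 ≤ a * ξ ^ 2 + b * η ^ 2 + p * μ ^ 2 + q * ν ^ 2 + δ * (ξ * η) := by
  set x := (x0 + x1) / 2 with hxm
  set y := (y0 + y1) / 2 with hym
  obtain ⟨ε, hε0, hε1, hε2⟩ : ∃ ε : ℝ, 0 < ε ∧ ε * |ξ| ≤ (x1 - x0) / 2 ∧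
      ε * |η| ≤ (y1 - y0) / 2 := by
    have k1 : 0 < (x1 - x0) / 2 := by linarith
    have k2 : 0 < (y1 - y0) / 2 := by linarith
    refine ⟨min ((x1 - x0) / 2 / (|ξ| + 1)) ((y1 - y0) / 2 / (|η| + 1)), by positivity, ?_, ?_⟩
    · have h1 := min_le_left ((x1 - x0) / 2 / (|ξ| + 1)) ((y1 - y0) / 2 / (|η| + 1))
      have h0 : 0 < min ((x1 - x0) / 2 / (|ξ| + 1)) ((y1 - y0) / 2 / (|η| + 1)) := by positivity
      rw [le_div_iff₀ (by positivity)] at h1
      nlinarith
    · have h1 := min_le_right ((x1 - x0) / 2 / (|ξ| + 1)) ((y1 - y0) / 2 / (|η| + 1))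
      have h0 : 0 < min ((x1 - x0) / 2 / (|ξ| + 1)) ((y1 - y0) / 2 / (|η| + 1)) := by positivity
      rw [le_div_iff₀ (by positivity)] at h1
      nlinarith
  have hl := hroc.line !![x, 0; 0, y] !![ξ, μ; ν, η] (by
    rw [Matrix.det_fin_two_of]; linarith)
  have h1 := hl.2 (mem_univ (-ε)) (mem_univ ε) (show (0 : ℝ) ≤ 1 / 2 by norm_num)
    (show (0 : ℝ) ≤ 1 / 2 by norm_num) (by norm_num)
  have e0 : (1 / 2 : ℝ) • (-ε) + (1 / 2 : ℝ) • ε = 0 := by
    simp only [smul_eq_mul]; ring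
  have em : ∀ s : ℝ, (!![x, 0; 0, y] : Matrix (Fin 2) (Fin 2) ℝ) + s • !![ξ, μ; ν, η]
      = !![x + s * ξ, s * μ; s * ν, y + s * η] := by
    intro s
    ext i j
    fin_cases i <;> fin_cases j <;> simp
  rw [e0] at h1
  simp only [em, En_mat, smul_eq_mul, zero_mul, add_zero] at h1
  have ax := abs_le.1 (le_refl |ξ|)
  have ay := abs_le.1 (le_refl |η|)
  have bx1 : -(ε * |ξ|) ≤ ε * ξ := by nlinarith
  have bx2 : ε * ξ ≤ ε * |ξ| := by nlinarith
  have by1 : -(ε * |η|) ≤ ε * η := by nlinarith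
  have by2 : ε * η ≤ ε * |η| := by nlinarith
  rw [hh x ⟨by linarith, by linarith⟩ y ⟨by linarith, by linarith⟩,
    hh (x + -ε * ξ) ⟨by linarith, by linarith⟩ (y + -ε * η) ⟨by linarith, by linarith⟩,
    hh (x + ε * ξ) ⟨by linarith, by linarith⟩ (y + ε * η) ⟨by linarith, by linarith⟩] at h1
  have h2 : 0 ≤ ε ^ 2 * (a * ξ ^ 2 + b * η ^ 2 + p * μ ^ 2 + q * ν ^ 2 + δ * (ξ * η)) := by
    have e3 : ε ^ 2 * (l * (ξ * η)) = ε ^ 2 * (l * (μ * ν)) := by rw [hd]
    nlinarith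
  exact nonneg_of_mul_nonneg_right h2 (by positivity)

/-- The bound of the mixed coefficient. -/
theorem cell_bound {a b p q δ : ℝ}
    (ht : ∀ ξ η μ ν : ℝ, ξ * η = μ * ν →
      0 ≤ a * ξ ^ 2 + b * η ^ 2 + p * μ ^ 2 + q * ν ^ 2 + δ * (ξ * η)) :
    0 ≤ a ∧ 0 ≤ b ∧ 0 ≤ p ∧ 0 ≤ q ∧ |δ| ≤ 2 * (Real.sqrt (a * b) + Real.sqrt (p * q)) := by
  have ha : 0 ≤ a := by have := ht 1 0 0 0 (by norm_num); simpa using this
  have hb : 0 ≤ b := by have := ht 0 1 0 0 (by norm_num); simpa using this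
  have hp : 0 ≤ p := by have := ht 0 0 1 0 (by norm_num); simpa using this
  have hq : 0 ≤ q := by have := ht 0 0 0 1 (by norm_num); simpa using this
  refine ⟨ha, hb, hp, hq, ?_⟩
  have h1 : ∀ ε : ℝ, 0 < ε → |δ| ≤ 2 * (Real.sqrt (a + ε) * Real.sqrt (b + ε)
      + Real.sqrt (p + ε) * Real.sqrt (q + ε)) := by
    intro ε hε
    have s0 : 0 < Real.sqrt (a + ε) := Real.sqrt_pos.2 (by linarith)
    have t0 : 0 < Real.sqrt (b + ε) := Real.sqrt_pos.2 (by linarith)
    have m0 : 0 < Real.sqrt (p + ε) := Real.sqrt_pos.2 (by linarith)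
    have n0 : 0 < Real.sqrt (q + ε) := Real.sqrt_pos.2 (by linarith)
    have s2 : Real.sqrt (a + ε) ^ 2 = a + ε := Real.sq_sqrt (by linarith)
    have t2 : Real.sqrt (b + ε) ^ 2 = b + ε := Real.sq_sqrt (by linarith)
    have m2 : Real.sqrt (p + ε) ^ 2 = p + ε := Real.sq_sqrt (by linarith)
    have n2 : Real.sqrt (q + ε) ^ 2 = q + ε := Real.sq_sqrt (by linarith)
    set s := Real.sqrt (a + ε)
    set t := Real.sqrt (b + ε)
    set m := Real.sqrt (p + ε)
    set n := Real.sqrt (q + ε)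
    have as : a ≤ s ^ 2 := by linarith
    have bt : b ≤ t ^ 2 := by linarith
    have pm : p ≤ m ^ 2 := by linarith
    have qn : q ≤ n ^ 2 := by linarith
    set L := Real.sqrt (m * n) with hL
    set K := Real.sqrt (s * t) with hK
    have L2 : L ^ 2 = m * n := Real.sq_sqrt (by positivity)
    have K2 : K ^ 2 = s * t := Real.sq_sqrt (by positivity)
    have hpos : 0 < s * t * (m * n) := by positivity
    have hg : ∀ σ : ℝ, σ ^ 2 = 1 → 0 ≤ 2 * (s * t + m * n) + σ * δ := by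
      intro σ hσ
      have h1 := ht (t * L) (σ * (s * L)) (n * K) (σ * (m * K)) (by
        have : t * L * (σ * (s * L)) = σ * (s * t) * L ^ 2 := by ring
        rw [this, L2]
        have : n * K * (σ * (m * K)) = σ * (m * n) * K ^ 2 := by ring
        rw [this, K2]
        ring)
      have w1 := mul_le_mul_of_nonneg_right as (sq_nonneg (t * L))
      have w2 := mul_le_mul_of_nonneg_right bt (sq_nonneg (σ * (s * L)))
      have w3 := mul_le_mul_of_nonneg_right pm (sq_nonneg (n * K))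
      have w4 := mul_le_mul_of_nonneg_right qn (sq_nonneg (σ * (m * K)))
      have h2 : 0 ≤ s ^ 2 * (t * L) ^ 2 + t ^ 2 * (σ * (s * L)) ^ 2 + m ^ 2 * (n * K) ^ 2
          + n ^ 2 * (σ * (m * K)) ^ 2 + δ * (t * L * (σ * (s * L))) := by linarith
      have h3 : s ^ 2 * (t * L) ^ 2 + t ^ 2 * (σ * (s * L)) ^ 2 + m ^ 2 * (n * K) ^ 2
          + n ^ 2 * (σ * (m * K)) ^ 2 + δ * (t * L * (σ * (s * L)))
          = (s * t * (m * n)) * (2 * (s * t + m * n) + σ * δ) := by
        have x1 : s ^ 2 * (t * L) ^ 2 = (s * t) ^ 2 * L ^ 2 := by ring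
        have x2 : t ^ 2 * (σ * (s * L)) ^ 2 = σ ^ 2 * (s * t) ^ 2 * L ^ 2 := by ring
        have x3 : m ^ 2 * (n * K) ^ 2 = (m * n) ^ 2 * K ^ 2 := by ring
        have x4 : n ^ 2 * (σ * (m * K)) ^ 2 = σ ^ 2 * (m * n) ^ 2 * K ^ 2 := by ring
        have x5 : δ * (t * L * (σ * (s * L))) = σ * δ * (s * t) * L ^ 2 := by ring
        rw [x1, x2, x3, x4, x5, L2, K2, hσ]
        ring
      rw [h3] at h2
      exact nonneg_of_mul_nonneg_right h2 hpos
    have g1 := hg 1 (by norm_num)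
    have g2 := hg (-1) (by norm_num)
    rw [abs_le]
    constructor <;> linarith
  have hc : ContinuousAt (fun ε : ℝ => 2 * (Real.sqrt (a + ε) * Real.sqrt (b + ε)
      + Real.sqrt (p + ε) * Real.sqrt (q + ε))) 0 := by fun_prop
  have hlim := hc.tendsto.mono_left (nhdsWithin_le_nhds (s := Ioi (0 : ℝ)))
  have h2 := ge_of_tendsto hlim (eventually_nhdsWithin_of_forall fun ε hε => h1 ε hε)
  simp only [add_zero] at h2
  rwa [Real.sqrt_mul ha, Real.sqrt_mul hp]

/-- The rank-one convexity of the energy of a function which is bilinear on the cells of a grid. -/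
theorem grid_roc {h : ℝ → ℝ → ℝ} {a b p q l : ℝ} {u v : ℤ → ℝ} (hu : StrictMono u)
    (hv : StrictMono v) (hcu : ∀ x : ℝ, ∃ i : ℤ, x ∈ Icc (u i) (u (i + 1)))
    (hcv : ∀ y : ℝ, ∃ j : ℤ, y ∈ Icc (v j) (v (j + 1)))
    (hh : ∀ i j : ℤ, ∃ α β γ δ : ℝ, ∀ x ∈ Icc (u i) (u (i + 1)), ∀ y ∈ Icc (v j) (v (j + 1)),
      h x y = α + β * x + γ * y + δ * (x * y))
    (hroc : Helper188.Morrey.RankOneConvex (En h a b p q l)) :
    0 ≤ a ∧ 0 ≤ b ∧ 0 ≤ p ∧ 0 ≤ q ∧ (∀ y, ConvexOn ℝ univ fun x => h x y) ∧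
      (∀ x, ConvexOn ℝ univ fun y => h x y) ∧
      ∀ x y s t, |h (x + s) (y + t) - h (x + s) y - h x (y + t) + h x y|
        ≤ 2 * (Real.sqrt (a * b) + Real.sqrt (p * q)) * |s * t| := by
  choose α β γ δ hh using hh
  have hb : ∀ i j, 0 ≤ a ∧ 0 ≤ b ∧ 0 ≤ p ∧ 0 ≤ q ∧
      |δ i j| ≤ 2 * (Real.sqrt (a * b) + Real.sqrt (p * q)) := fun i j =>
    cell_bound fun ξ η μ ν hd => cell_test hroc (hu (by omega : i < i + 1))
      (hv (by omega : j < j + 1)) (hh i j) ξ η μ ν hd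
  obtain ⟨ha, hb', hp, hq, -⟩ := hb 0 0
  refine ⟨ha, hb', hp, hq, ?_, ?_, ?_⟩
  · intro y
    obtain ⟨j, hj⟩ := hcv y
    have hf : ∀ i : ℤ, ∀ x ∈ Icc (u i) (u (i + 1)),
        h x y = (α i j + γ i j * y) + (β i j + δ i j * y) * x := by
      intro i x hx
      rw [hh i j x hx y hj]
      ring
    refine convex_of_pw hu hcu hf (slopes hu hf (κ := a) ?_)
    have hl := hroc.line !![0, 0; 0, y] !![1, 0; 0, 0] (by simp [Matrix.det_fin_two])
    have em : ∀ s : ℝ, (!![0, 0; 0, y] : Matrix (Fin 2) (Fin 2) ℝ) + s • !![1, 0; 0, 0]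
        = !![s, 0; 0, y] := by
      intro s
      ext i j
      fin_cases i <;> fin_cases j <;> simp
    simp only [em, En_mat] at hl
    refine ⟨convex_univ, fun s _ t _ c d hc hd hcd => ?_⟩
    have h1 := hl.2 (mem_univ s) (mem_univ t) hc hd hcd
    simp only [smul_eq_mul] at h1 ⊢
    have hc' : c = 1 - d := by linarith
    rw [hc'] at h1 ⊢
    nlinarith
  · intro x
    obtain ⟨i, hi⟩ := hcu x
    have hf : ∀ j : ℤ, ∀ y ∈ Icc (v j) (v (j + 1)),
        h x y = (α i j + β i j * x) + (γ i j + δ i j * x) * y := by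
      intro j y hy
      rw [hh i j x hi y hy]
      ring
    refine convex_of_pw hv hcv hf (slopes hv hf (κ := b) ?_)
    have hl := hroc.line !![x, 0; 0, 0] !![0, 0; 0, 1] (by simp [Matrix.det_fin_two])
    have em : ∀ s : ℝ, (!![x, 0; 0, 0] : Matrix (Fin 2) (Fin 2) ℝ) + s • !![0, 0; 0, 1]
        = !![x, 0; 0, s] := by
      intro s
      ext i j
      fin_cases i <;> fin_cases j <;> simp
    simp only [em, En_mat] at hl
    refine ⟨convex_univ, fun s _ t _ c d hc hd hcd => ?_⟩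
    have h1 := hl.2 (mem_univ s) (mem_univ t) hc hd hcd
    simp only [smul_eq_mul] at h1 ⊢
    have hc' : c = 1 - d := by linarith
    rw [hc'] at h1 ⊢
    nlinarith
  · set M := 2 * (Real.sqrt (a * b) + Real.sqrt (p * q)) with hM
    have hM0 : 0 ≤ M := by positivity
    -- one variable in a cell
    have s1 : ∀ i : ℤ, ∀ x ∈ Icc (u i) (u (i + 1)), ∀ x' ∈ Icc (u i) (u (i + 1)),
        ∀ y y' : ℝ, |(h x' y' - h x y') - (h x' y - h x y)| ≤ (M * |x' - x|) * |y' - y| := by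
      intro i x hx x' hx' y y'
      refine lip_of_pw hv hcv (φ := fun y => h x' y - h x y) (K := M * |x' - x|) ?_ y y'
      intro j y hy y' hy'
      rw [hh i j x' hx' y' hy', hh i j x hx y' hy', hh i j x' hx' y hy, hh i j x hx y hy]
      have e : α i j + β i j * x' + γ i j * y' + δ i j * (x' * y')
          - (α i j + β i j * x + γ i j * y' + δ i j * (x * y'))
          - (α i j + β i j * x' + γ i j * y + δ i j * (x' * y)
            - (α i j + β i j * x + γ i j * y + δ i j * (x * y)))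
          = δ i j * ((x' - x) * (y' - y)) := by ring
      rw [e, abs_mul, abs_mul, ← mul_assoc]
      have h1 := (hb i j).2.2.2.2
      gcongr
    intro x y s t
    have s2 := lip_of_pw hu hcu (φ := fun x => h x (y + t) - h x y) (K := M * |t|) (by
      intro i x hx x' hx'
      have h1 := s1 i x hx x' hx' y (y + t)
      have e : h x' (y + t) - h x' y - (h x (y + t) - h x y)
          = (h x' (y + t) - h x (y + t)) - (h x' y - h x y) := by ring
      rw [e]
      refine h1.trans (le_of_eq ?_)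
      rw [add_sub_cancel_left]
      ring) x (x + s)
    have e : h (x + s) (y + t) - h (x + s) y - h x (y + t) + h x y
        = h (x + s) (y + t) - h (x + s) y - (h x (y + t) - h x y) := by ring
    rw [e]
    refine s2.trans (le_of_eq ?_)
    rw [add_sub_cancel_left, abs_mul]
    ring

end Pool.Agent.Helper95.MQ
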