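import Pool.Agent.Helper95.MQ.Flow
import Pool.Agent.N555.MQ.Fin2

/-!
# Separately convex functions of the diagonal with a bounded mixed derivative
-/

set_option autoImplicit false

open MeasureTheory Set Filter Topology

namespace Pool.Agent.Helper95.MQ

open Pool.Agent.W779.Morrey hiding en en_apply
open Pool.Agent.N555.MQ Pool.Agent.Helper27.MQ

/-- the quadratic form `a F₀₀² + b F₁₁² + p F₀₁² + q F₁₀²` -/
noncomputable def QB (a b p q : ℝ) : E →L[ℝ] E →L[ℝ] ℝ :=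
  a • (en 0 0).smulRight (en 0 0) + b • (en 1 1).smulRight (en 1 1)
    + p • (en 0 1).smulRight (en 0 1) + q • (en 1 0).smulRight (en 1 0)

theorem QB_apply (a b p q : ℝ) (F G : E) : QB a b p q F G
    = a * (F 0 0 * G 0 0) + b * (F 1 1 * G 1 1) + p * (F 0 1 * G 0 1) + q * (F 1 0 * G 1 0) := by
  simp only [QB, FunLike.coe_smul, Pi.smul_apply, _root_.add_apply,
    ContinuousLinearMap.smulRight_apply, en_apply, smul_eq_mul]

/-- the second derivative as a bilinear form -/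
theorem mixed_WL {h : V → ℝ} (hh : ContDiff ℝ 2 h) (L : E →L[ℝ] V) (B : E →L[ℝ] E →L[ℝ] ℝ)
    (F G H : E) :
    fderiv ℝ (fderiv ℝ (fun F : E => h (L F) + B F F)) F G H
      = fderiv ℝ (fderiv ℝ h) (L F) (L G) (L H) + (B G H + B H G) := by
  have hW := contDiff_WL hh L B
  have s1 : fderiv ℝ (fderiv ℝ (fun F : E => h (L F) + B F F)) F G H
      = fderiv ℝ (fderiv ℝ (fun F : E => h (L F) + B F F)) F H G := by
    have h := (hW.contDiffAt (x := F)).isSymmSndFDerivAt (by simp)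
    exact h _ _
  have s2 : fderiv ℝ (fderiv ℝ h) (L F) (L G) (L H) = fderiv ℝ (fderiv ℝ h) (L F) (L H) (L G) := by
    have h := (hh.contDiffAt (x := L F)).isSymmSndFDerivAt (by simp)
    exact h _ _
  have h1 := second_WL hh L B F (G + H)
  have h2 := second_WL hh L B F (G - H)
  simp only [map_add, map_sub, _root_.add_apply, _root_.sub_apply] at h1 h2
  linarith

/-- the first unit vector -/
def e0 : V := Pi.single 0 1

/-- the second unit vector -/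
def e1 : V := Pi.single 1 1

theorem vec_expand (v : V) : v = v 0 • e0 + v 1 • e1 := by
  ext j
  fin_cases j <;> simp [e0, e1]

theorem bil_expand (S : V →L[ℝ] V →L[ℝ] ℝ) (v w : V) : S v w = v 0 * w 0 * S e0 e0
    + v 0 * w 1 * S e0 e1 + v 1 * w 0 * S e1 e0 + v 1 * w 1 * S e1 e1 := by
  conv_lhs => rw [vec_expand v, vec_expand w]
  simp only [map_add, map_smul, _root_.add_apply, FunLike.coe_smul, Pi.smul_apply, smul_eq_mul]
  ring

/-- the elementary inequality -/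
theorem quad_nonneg {α β γ x y : ℝ} (hα : 0 ≤ α) (hγ : 0 ≤ γ) (h : β ^ 2 ≤ 4 * (α * γ)) :
    0 ≤ α * x ^ 2 + β * (x * y) + γ * y ^ 2 := by
  rcases hα.eq_or_lt with h0 | h0
  · have hb : β = 0 := by
      have : β ^ 2 ≤ 0 := by rw [← h0] at h; simpa using h
      exact pow_eq_zero_iff (two_ne_zero) |>.1 (le_antisymm this (sq_nonneg β))
    rw [← h0, hb]
    simp only [zero_mul, zero_add]
    positivity
  · have h1 : 0 ≤ α * (α * x ^ 2 + β * (x * y) + γ * y ^ 2) := by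
      nlinarith [sq_nonneg (2 * α * x + β * y), mul_nonneg (sub_nonneg.2 h) (sq_nonneg y)]
    exact nonneg_of_mul_nonneg_right h1 h0

/-- **The certificate.** -/
theorem sep_smooth {g : V → ℝ} (hg : ContDiff ℝ 2 g) {M a b p q : ℝ} (ha : 0 < a) (hb : 0 < b)
    (hp : 0 < p) (hq : 0 < q)
    (h00 : ∀ v : V, 0 ≤ fderiv ℝ (fderiv ℝ g) v e0 e0)
    (h11 : ∀ v : V, 0 ≤ fderiv ℝ (fderiv ℝ g) v e1 e1)
    (h01 : ∀ v : V, |fderiv ℝ (fderiv ℝ g) v e0 e1| ≤ M)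
    (hM : M ^ 4 < 256 * (a * b * p * q)) :
    QCtrig (fun F : E => g (dgL F) + QB a b p q F F) := by
  have hM0 : 0 ≤ M := (abs_nonneg _).trans (h01 0)
  set ρ := Real.sqrt (a * q / (b * p)) with hρ
  have hρ0 : 0 < ρ := Real.sqrt_pos.2 (by positivity)
  have hρ2 : ρ ^ 2 * (b * p) = a * q := by
    rw [hρ, Real.sq_sqrt (by positivity)]
    field_simp
  have k1 : M ^ 2 < 16 * ρ * (b * p) := by
    refine lt_of_pow_lt_pow_left₀ 2 (by positivity) ?_
    calc (M ^ 2) ^ 2 = M ^ 4 := by ring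
      _ < 256 * (a * b * p * q) := hM
      _ = 256 * (a * q) * (b * p) := by ring
      _ = (16 * ρ * (b * p)) ^ 2 := by rw [← hρ2]; ring
  have k2 : ρ ^ 2 * M ^ 2 < 16 * ρ * (a * q) := by
    rw [← hρ2]
    have : 0 < ρ ^ 2 := by positivity
    nlinarith
  have l1 : ∀ᶠ ε in 𝓝 (0 : ℝ), (1 + 2 * ε) ^ 2 * M ^ 2 < 16 * ρ * (b * p) := by
    have hc : ContinuousAt (fun ε : ℝ => (1 + 2 * ε) ^ 2 * M ^ 2) 0 := by fun_prop
    refine hc.eventually (gt_mem_nhds ?_)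
    simpa using k1
  have l2 : ∀ᶠ ε in 𝓝 (0 : ℝ), (ρ + 2 * ε) ^ 2 * M ^ 2 < 16 * ρ * (a * q) := by
    have hc : ContinuousAt (fun ε : ℝ => (ρ + 2 * ε) ^ 2 * M ^ 2) 0 := by fun_prop
    refine hc.eventually (gt_mem_nhds ?_)
    simpa using k2
  obtain ⟨ε, ⟨l1', l2'⟩, hε⟩ := (((l1.and l2).filter_mono
    (nhdsWithin_le_nhds (s := Ioi (0 : ℝ)))).and self_mem_nhdsWithin).exists
  have hε0 : 0 < ε := hε
  set s := Real.sqrt ρ with hs
  have hs2 : s * s = ρ := Real.mul_self_sqrt hρ0.le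
  refine rcert_main (contDiff_WL hg dgL (QB a b p q)) ![![s, 0], ![0, 1]] hε0 ?_
  intro F G₀ G₁ hcomp
  have t0 : (![![s, 0], ![0, 1]] : Fin 2 → V) 0 0 • G₀ + (![![s, 0], ![0, 1]] : Fin 2 → V) 0 1 • G₁
      = s • G₀ := by simp
  have t1 : (![![s, 0], ![0, 1]] : Fin 2 → V) 1 0 • G₀ + (![![s, 0], ![0, 1]] : Fin 2 → V) 1 1 • G₁
      = G₁ := by simp
  rw [t0, t1]
  simp only [map_smul, FunLike.coe_smul, Pi.smul_apply, smul_eq_mul]
  rw [mixed_WL hg, mixed_WL hg, mixed_WL hg, mixed_WL hg]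
  set S := fderiv ℝ (fderiv ℝ g) (dgL F) with hS
  have hsym : S e1 e0 = S e0 e1 := by
    have h := (hg.contDiffAt (x := dgL F)).isSymmSndFDerivAt (by simp)
    exact h _ _
  rw [bil_expand S (dgL G₀) (dgL (Pr 0 G₀)), bil_expand S (dgL G₁) (dgL (Pr 1 G₁)),
    bil_expand S (dgL G₀) (dgL G₀), bil_expand S (dgL G₁) (dgL G₁), hsym]
  simp only [QB_apply, dgL_apply, Pr_apply']
  have c0 := hcomp 0
  have c1 := hcomp 1
  have A0 := h00 (dgL F)
  have C0 := h11 (dgL F)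
  have B0 := abs_le.1 (h01 (dgL F))
  rw [← hS] at A0 C0 B0
  set A := S e0 e0
  set B := S e0 e1
  set C := S e1 e1
  simp only [if_true, Fin.isValue, one_ne_zero, zero_ne_one, if_false]
  rw [← c0, ← c1]
  set x := G₀ 0 0
  set u := G₀ 0 1
  set P := G₀ 1 0
  set Q := G₀ 1 1
  set r := G₁ 0 1
  set R := G₁ 1 1
  have hB2 : B ^ 2 ≤ M ^ 2 := sq_le_sq' B0.1 B0.2
  have m1 : 0 ≤ (2 * ρ * a) * x ^ 2 + ((ρ + 2 * ε) * B) * (x * Q) + (2 * q) * Q ^ 2 := by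
    refine quad_nonneg (by positivity) (by positivity) ?_
    have : (ρ + 2 * ε) ^ 2 * B ^ 2 ≤ (ρ + 2 * ε) ^ 2 * M ^ 2 :=
      mul_le_mul_of_nonneg_left hB2 (sq_nonneg _)
    nlinarith
  have m2 : 0 ≤ (2 * ρ * p) * u ^ 2 + ((1 + 2 * ε) * B) * (u * R) + (2 * b) * R ^ 2 := by
    refine quad_nonneg (by positivity) (by positivity) ?_
    have : (1 + 2 * ε) ^ 2 * B ^ 2 ≤ (1 + 2 * ε) ^ 2 * M ^ 2 :=
      mul_le_mul_of_nonneg_left hB2 (sq_nonneg _)
    nlinarith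
  have n1 : 0 ≤ ρ * (A * x ^ 2) := by positivity
  have n2 : 0 ≤ C * R ^ 2 := by positivity
  have n3 : 0 ≤ ε * (A * x ^ 2 + C * Q ^ 2 + A * u ^ 2 + C * R ^ 2) := by positivity
  have n4 : 0 ≤ ε * (2 * (a * x ^ 2 + b * Q ^ 2 + p * u ^ 2 + q * P ^ 2)
    + 2 * (a * u ^ 2 + b * R ^ 2 + p * r ^ 2 + q * Q ^ 2)) := by positivity
  have hfin : ∀ z : ℝ, s * (s * z) = ρ * z := by
    intro z; rw [← hs2]; ring
  simp only [hfin]
  nlinarith [m1, m2, n1, n2, n3, n4]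

end Pool.Agent.Helper95.MQ
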