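import Pool.Agent.Helper95.MQ.Roc
import Pool.Agent.Helper27.MQ.Fin

/-!
# A function of the diagonal plus a function of the antidiagonal
-/

set_option autoImplicit false

open MeasureTheory Set Filter Topology Matrix

namespace Pool.Agent.Helper95.MQ

open Pool.Agent.W779.Morrey hiding en en_apply
open Pool.Agent.N555.MQ Pool.Agent.Helper27.MQ

/-- The mixed differences of `h` differ from `σ s t` at most by `M |s t|`. -/
def Mixed (σ M : ℝ) (h : ℝ → ℝ → ℝ) : Prop :=
  ∀ x y s t, |h (x + s) (y + t) - h (x + s) y - h x (y + t) + h x y - σ * (s * t)| ≤ M * |s * t|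

/-- convexity in each variable -/
def Sep (h : ℝ → ℝ → ℝ) : Prop :=
  (∀ y, ConvexOn ℝ univ fun x => h x y) ∧ ∀ x, ConvexOn ℝ univ fun y => h x y

theorem Mixed.nonneg {σ M : ℝ} {h : ℝ → ℝ → ℝ} (hh : Mixed σ M h) : 0 ≤ M := by
  have h1 := (abs_nonneg _).trans (hh 0 0 1 1)
  simpa using h1

theorem continuous_sep {h : ℝ → ℝ → ℝ} {M : ℝ} (hs : Sep h) (hm : Mixed 0 M h) :
    Continuous (fun v : V => h (v 0) (v 1)) := by
  rw [continuous_iff_continuousAt]
  intro v
  have c0 : Continuous fun x => h x (v 1) := cont_conv (hs.1 (v 1))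
  have c1 : Continuous fun y => h (v 0) y := cont_conv (hs.2 (v 0))
  have t0 : Tendsto (fun w : V => w 0) (𝓝 v) (𝓝 (v 0)) := (continuous_apply 0).tendsto v
  have t1 : Tendsto (fun w : V => w 1) (𝓝 v) (𝓝 (v 1)) := (continuous_apply 1).tendsto v
  have u0 : Tendsto (fun w : V => h (w 0) (v 1)) (𝓝 v) (𝓝 (h (v 0) (v 1))) :=
    (c0.tendsto (v 0)).comp t0
  have u1 : Tendsto (fun w : V => h (v 0) (w 1)) (𝓝 v) (𝓝 (h (v 0) (v 1))) :=
    (c1.tendsto (v 1)).comp t1
  have u2 : Tendsto (fun w : V => M * |(w 0 - v 0) * (w 1 - v 1)|) (𝓝 v) (𝓝 0) := by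
    have := (((t0.sub_const (v 0)).mul (t1.sub_const (v 1))).abs).const_mul M
    simpa using this
  have u3 : Tendsto (fun w : V => h (w 0) (w 1) - h (w 0) (v 1) - h (v 0) (w 1) + h (v 0) (v 1))
      (𝓝 v) (𝓝 0) := by
    refine squeeze_zero_norm (fun w => ?_) u2
    have := hm (v 0) (v 1) (w 0 - v 0) (w 1 - v 1)
    rw [add_sub_cancel, add_sub_cancel, zero_mul, sub_zero] at this
    rw [Real.norm_eq_abs]
    exact this
  have u4 := ((u3.add u0).add u1).sub_const (h (v 0) (v 1))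
  have e1 : (fun w : V => h (w 0) (w 1) - h (w 0) (v 1) - h (v 0) (w 1) + h (v 0) (v 1)
      + h (w 0) (v 1) + h (v 0) (w 1) - h (v 0) (v 1)) = fun w : V => h (w 0) (w 1) := by
    funext w
    ring
  have e2 : 0 + h (v 0) (v 1) + h (v 0) (v 1) - h (v 0) (v 1) = h (v 0) (v 1) := by
    ring
  rw [e1, e2] at u4
  exact u4

/-- the criterion for one function of the diagonal -/
theorem sep_all {h : ℝ → ℝ → ℝ} {M a b p q : ℝ} (ha : 0 ≤ a) (hb : 0 ≤ b)
    (hp : 0 ≤ p) (hq : 0 ≤ q) (hs : Sep h) (hm : Mixed 0 M h)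
    (hM : (p * q ≤ a * b ∧ M ≤ 2 * (Real.sqrt (a * b) + Real.sqrt (p * q))) ∨
      M ^ 4 ≤ 256 * (a * b * p * q)) :
    Continuous (fun F : E => h (F 0 0) (F 1 1)) ∧
      QCtrig (fun F : E => h (F 0 0) (F 1 1) + QB a b p q F F) := by
  have hgc := continuous_sep hs hm
  refine ⟨hgc.comp dgL.continuous, ?_⟩
  set g : V → ℝ := fun v => h (v 0) (v 1) with hg
  have hsep : ∀ (r : Fin 2) (v : V) (s t : ℝ), 0 ≤ t → t ≤ 1 →
      g (v + t • (s • Pi.single r 1)) ≤ (1 - t) * g v + t * g (v + s • Pi.single r 1) := by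
    intro r v s t ht0 ht1
    fin_cases r
    · have h1 := (hs.1 (v 1)).2 (mem_univ (v 0)) (mem_univ (v 0 + s))
        (show 0 ≤ 1 - t by linarith) ht0 (by ring)
      have e : (1 - t) * v 0 + t * (v 0 + s) = v 0 + t * s := by ring
      simp only [smul_eq_mul, e] at h1
      simpa [hg] using h1
    · have h1 := (hs.2 (v 0)).2 (mem_univ (v 1)) (mem_univ (v 1 + s))
        (show 0 ≤ 1 - t by linarith) ht0 (by ring)
      have e : (1 - t) * v 1 + t * (v 1 + s) = v 1 + t * s := by ring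
      simp only [smul_eq_mul, e] at h1
      simpa [hg] using h1
  have hmix' : ∀ (v : V) (s t : ℝ),
      |g (v + s • e0 + t • e1) - g (v + s • e0) - g (v + t • e1) + g v| ≤ M * |s * t| := by
    intro v s t
    have := hm (v 0) (v 1) s t
    rw [zero_mul, sub_zero] at this
    simpa [hg, e0, e1] using this
  rcases hM with ⟨h2, h3⟩ | h2
  · exact sep_trig2 hgc ha hb hp hq h2 hsep hmix' h3
  · exact sep_trig hgc ha hb hp hq hsep hmix' h2

/-- the criterion for one function of the antidiagonal -/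
theorem sep_anti {g : ℝ → ℝ → ℝ} {M a b p q : ℝ} (ha : 0 ≤ a) (hb : 0 ≤ b)
    (hp : 0 ≤ p) (hq : 0 ≤ q) (hs : Sep g) (hm : Mixed 0 M g)
    (hM : M ^ 4 ≤ 256 * (a * b * p * q)) :
    Continuous (fun F : E => g (F 0 1) (F 1 0)) ∧
      QCtrig (fun F : E => g (F 0 1) (F 1 0) + QB a b p q F F) := by
  have hs' : Sep (fun x y => g y x) := ⟨hs.2, hs.1⟩
  have hm' : Mixed 0 M (fun x y => g y x) := by
    intro x y s t
    have := hm y x t s
    rw [mul_comm s t]
    refine le_trans (le_of_eq ?_) this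
    congr 1
    ring
  obtain ⟨h1, h2⟩ := sep_all (h := fun x y => g y x) (a := q) (b := p) (p := b) (q := a) hq hp hb ha
    hs' hm' (Or.inr (by linarith [show q * p * b * a = a * b * p * q by ring]))
  have e1 : (fun F : E => g (F 0 1) (F 1 0))
      = (fun F : E => g (F 1 1) (F 0 0)) ∘ (LM 0 1 1 0) := by
    funext F
    simp [LM_zero, LM_one]
  refine ⟨?_, ?_⟩
  · rw [e1]
    exact h1.comp (LM 0 1 1 0).continuous
  · refine QCtrig_of_LM (a := 0) (b := 1) (c := 1) (d := 0) (a' := 0) (b' := 1) (c' := 1)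
      (d' := 0) (fun F => ?_) ?_
    · ext r l
      fin_cases r
      · simp [LM_zero, LM_one]
      · simp [LM_zero, LM_one]
    · have e2 : (fun G : E => g (LM 0 1 1 0 G 0 1) (LM 0 1 1 0 G 1 0)
          + QB a b p q (LM 0 1 1 0 G) (LM 0 1 1 0 G))
          = fun G : E => g (G 1 1) (G 0 0) + QB q p b a G G := by
        funext G
        rw [QB_apply, QB_apply]
        simp only [LM_zero, LM_one]
        have k : ∀ u v : ℝ, 0 * u + 1 * v = v := by intro u v; ring
        have k' : ∀ u v : ℝ, 1 * u + 0 * v = u := by intro u v; ring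
        simp only [k, k']
        ring
      rw [e2]
      exact h2

/-- the function `h(F₀₀, F₁₁) + g(F₀₁, F₁₀) + a F₀₀² + b F₁₁² + p F₀₁² + q F₁₀² + l det F` -/
def En2 (h g : ℝ → ℝ → ℝ) (a b p q l : ℝ) (F : Matrix (Fin 2) (Fin 2) ℝ) : ℝ :=
  h (F 0 0) (F 1 1) + g (F 0 1) (F 1 0)
    + (a * F 0 0 ^ 2 + b * F 1 1 ^ 2 + p * F 0 1 ^ 2 + q * F 1 0 ^ 2) + l * F.det

theorem En2_mat (h g : ℝ → ℝ → ℝ) (a b p q l x y z w : ℝ) : En2 h g a b p q l !![x, z; w, y]
    = h x y + g z w + (a * x ^ 2 + b * y ^ 2 + p * z ^ 2 + q * w ^ 2)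
      + l * (x * y - z * w) := by
  simp [En2, Matrix.det_fin_two]

/-- The energy with two functions is quasiconvex. -/
theorem fin_two {h g : ℝ → ℝ → ℝ} {σ r a b p q : ℝ} (l : ℝ) (ha : 0 ≤ a) (hb : 0 ≤ b)
    (hp : 0 ≤ p) (hq : 0 ≤ q) (hle : p * q ≤ a * b) (hsh : Sep h) (hsg : Sep g)
    (hr : r ≤ 4 * Real.sqrt (p * q)) (hg : Mixed σ r g)
    (hh : Mixed (-σ) (2 * (Real.sqrt (a * b) + Real.sqrt (p * q)) - r) h) :
    QC (En2 h g a b p q l) := by
  have hr0 := hg.nonneg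
  set A := Real.sqrt (a * b) with hA
  set P := Real.sqrt (p * q) with hP
  have hA0 : 0 ≤ A := Real.sqrt_nonneg _
  have hP0 : 0 ≤ P := Real.sqrt_nonneg _
  have hA2 : A ^ 2 = a * b := Real.sq_sqrt (by positivity)
  have hP2 : P ^ 2 = p * q := Real.sq_sqrt (by positivity)
  have hPA : P ≤ A := Real.sqrt_le_sqrt hle
  set h' : ℝ → ℝ → ℝ := fun x y => h x y + σ * (x * y) with hh'
  set g' : ℝ → ℝ → ℝ := fun x y => g x y - σ * (x * y) with hg'
  have addlin : ∀ (f : ℝ → ℝ) (c : ℝ), ConvexOn ℝ univ f → ConvexOn ℝ univ fun x => f x + c * x := by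
    intro f c hf
    refine ⟨convex_univ, fun x _ y _ s t hs ht hst => ?_⟩
    have h1 := hf.2 (mem_univ x) (mem_univ y) hs ht hst
    simp only [smul_eq_mul] at h1 ⊢
    nlinarith
  have hsh' : Sep h' := by
    refine ⟨fun y => ?_, fun x => ?_⟩
    · refine (addlin _ (σ * y) (hsh.1 y)).congr fun x _ => ?_
      simp only [hh']
      ring
    · refine (addlin _ (σ * x) (hsh.2 x)).congr fun y _ => ?_
      simp only [hh']
      ring
  have hsg' : Sep g' := by
    refine ⟨fun y => ?_, fun x => ?_⟩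
    · refine (addlin _ (-(σ * y)) (hsg.1 y)).congr fun x _ => ?_
      simp only [hg']
      ring
    · refine (addlin _ (-(σ * x)) (hsg.2 x)).congr fun y _ => ?_
      simp only [hg']
      ring
  have hmh : Mixed 0 (2 * (A + P) - r) h' := by
    intro x y s t
    refine le_trans (le_of_eq ?_) (hh x y s t)
    simp only [hh']
    congr 1
    ring
  have hmg : Mixed 0 r g' := by
    intro x y s t
    refine le_trans (le_of_eq ?_) (hg x y s t)
    simp only [hg']
    congr 1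
    ring
  -- the splitting of the quadratic form
  obtain ⟨φ, hφ0, hφ1, hφ⟩ : ∃ φ : ℝ, 0 ≤ φ ∧ φ ≤ 1 ∧ φ * A = r / 4 := by
    rcases hA0.eq_or_lt with h0 | h0
    · refine ⟨0, le_rfl, zero_le_one, ?_⟩
      have : r = 0 := by linarith
      rw [this]
      ring
    · refine ⟨r / (4 * A), by positivity, ?_, by field_simp⟩
      rw [div_le_one (by positivity)]
      linarith
  obtain ⟨θ, hθ0, hθ1, hθ⟩ : ∃ θ : ℝ, 0 ≤ θ ∧ θ ≤ 1 ∧ θ * P = r / 4 := by
    rcases hP0.eq_or_lt with h0 | h0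
    · refine ⟨0, le_rfl, zero_le_one, ?_⟩
      have : r = 0 := by linarith
      rw [this]
      ring
    · refine ⟨r / (4 * P), by positivity, ?_, by field_simp⟩
      rw [div_le_one (by positivity)]
      exact hr
  have hφ' : 0 ≤ 1 - φ := by linarith
  have hθ' : 0 ≤ 1 - θ := by linarith
  have r1 : Real.sqrt ((1 - φ) * a * ((1 - φ) * b)) = A - r / 4 := by
    have e : (1 - φ) * a * ((1 - φ) * b) = ((1 - φ) * A) ^ 2 := by
      rw [mul_pow, hA2]; ring
    rw [e, Real.sqrt_sq (by positivity)]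
    linarith
  have r2 : Real.sqrt ((1 - θ) * p * ((1 - θ) * q)) = P - r / 4 := by
    have e : (1 - θ) * p * ((1 - θ) * q) = ((1 - θ) * P) ^ 2 := by
      rw [mul_pow, hP2]; ring
    rw [e, Real.sqrt_sq (by positivity)]
    linarith
  have k1 := sep_all (h := h') (M := 2 * (A + P) - r) (a := (1 - φ) * a) (b := (1 - φ) * b)
    (p := (1 - θ) * p) (q := (1 - θ) * q) (by positivity) (by positivity) (by positivity)
    (by positivity) hsh' hmh (Or.inl ⟨by
      have e1 : (1 - φ) * a * ((1 - φ) * b) = (A - r / 4) ^ 2 := by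
        rw [← r1, Real.sq_sqrt (by positivity)]
      have e2 : (1 - θ) * p * ((1 - θ) * q) = (P - r / 4) ^ 2 := by
        rw [← r2, Real.sq_sqrt (by positivity)]
      rw [e1, e2]
      refine pow_le_pow_left₀ ?_ (by linarith) 2
      rw [← r2]
      exact Real.sqrt_nonneg _, by rw [r1, r2]; linarith⟩)
  have k2 := sep_anti (g := g') (M := r) (a := φ * a) (b := φ * b)
    (p := θ * p) (q := θ * q) (by positivity) (by positivity) (by positivity)
    (by positivity) hsg' hmg (by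
      have e : φ * a * (φ * b) * (θ * p) * (θ * q) = (φ * A) ^ 2 * (θ * P) ^ 2 := by
        rw [mul_pow, mul_pow, hA2, hP2]; ring
      rw [e, hφ, hθ]
      nlinarith)
  have hQc : ∀ a b p q : ℝ, Continuous (fun F : E => QB a b p q F F) :=
    fun a b p q => (QB a b p q).continuous.clm_apply continuous_id
  have c1 := k1.1.add (hQc ((1 - φ) * a) ((1 - φ) * b) ((1 - θ) * p) ((1 - θ) * q))
  have c2 := k2.1.add (hQc (φ * a) (φ * b) (θ * p) (θ * q))
  have hc3 : Continuous (fun F : E => (l - σ) * dt F) := continuous_const.mul continuous_dt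
  have e : (fun F : E => En2 h g a b p q l (of F))
      = fun F : E => ((h' (F 0 0) (F 1 1)
        + QB ((1 - φ) * a) ((1 - φ) * b) ((1 - θ) * p) ((1 - θ) * q) F F)
        + (g' (F 0 1) (F 1 0) + QB (φ * a) (φ * b) (θ * p) (θ * q) F F)) + (l - σ) * dt F := by
    funext F
    unfold En2
    rw [QB_apply, QB_apply, det_of]
    simp only [hh', hg', of_apply, dt]
    ring
  refine QC_of_trig ?_ ?_
  · rw [e]
    exact (c1.add c2).add hc3
  · rw [e]
    exact (k1.2.add k2.2 c1 c2).add (QCtrig_dt (l - σ)) (c1.add c2) hc3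

/-- Rank-one convexity of the energy with two functions. -/
theorem two_roc {h g : ℝ → ℝ → ℝ} {σ r a b p q : ℝ} (l : ℝ) (ha : 0 ≤ a) (hb : 0 ≤ b)
    (hp : 0 ≤ p) (hq : 0 ≤ q) (hsh : Sep h) (hsg : Sep g) (hg : Mixed σ r g)
    (hh : Mixed (-σ) (2 * (Real.sqrt (a * b) + Real.sqrt (p * q)) - r) h) :
    Helper188.Morrey.RankOneConvex (En2 h g a b p q l) := by
  intro F H hH t ht0 ht1
  have hd := Helper188.Morrey.det_eq_zero_of_rank hH.le
  rw [Matrix.det_fin_two] at hd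
  unfold En2
  rw [Matrix.det_fin_two, Matrix.det_fin_two, Matrix.det_fin_two]
  simp only [Matrix.add_apply, Matrix.smul_apply, smul_eq_mul]
  set x := F 0 0
  set y := F 1 1
  set z := F 0 1
  set w := F 1 0
  set ξ := H 0 0
  set η := H 1 1
  set μ := H 0 1
  set ν := H 1 0
  have ex : ∀ x ξ : ℝ, (1 - t) * x + t * (x + ξ) = x + t * ξ := by intro x ξ; ring
  simp only [ex]
  have tt : 0 ≤ t * (1 - t) := mul_nonneg ht0 (by linarith)
  have bil : ∀ (f : ℝ → ℝ → ℝ), Sep f → ∀ (x y ξ η : ℝ), f (x + t * ξ) (y + t * η)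
      ≤ (1 - t) * f x y + t * f (x + ξ) (y + η)
        - t * (1 - t) * (f (x + ξ) (y + η) - f (x + ξ) y - f x (y + η) + f x y) := by
    intro f hf x y ξ η
    have s1 := (hf.1 (y + t * η)).2 (mem_univ x) (mem_univ (x + ξ)) (show 0 ≤ 1 - t by linarith)
      ht0 (by ring)
    have s2 := (hf.2 x).2 (mem_univ y) (mem_univ (y + η)) (show 0 ≤ 1 - t by linarith) ht0
      (by ring)
    have s3 := (hf.2 (x + ξ)).2 (mem_univ y) (mem_univ (y + η)) (show 0 ≤ 1 - t by linarith) ht0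
      (by ring)
    simp only [smul_eq_mul, ex] at s1 s2 s3
    have k1 := mul_le_mul_of_nonneg_left s2 (show 0 ≤ 1 - t by linarith)
    have k2 := mul_le_mul_of_nonneg_left s3 ht0
    nlinarith
  have s5 := bil h hsh x y ξ η
  have s6 := bil g hsg z w μ ν
  have s7 := (abs_le.1 (hh x y ξ η)).1
  have s8 := (abs_le.1 (hg z w μ ν)).1
  have q1 : 2 * Real.sqrt (a * b) * |ξ * η| ≤ a * ξ ^ 2 + b * η ^ 2 := by
    rw [Real.sqrt_mul ha, abs_mul]
    have h1 := Real.sq_sqrt ha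
    have h2 := Real.sq_sqrt hb
    have h3 := sq_nonneg (Real.sqrt a * |ξ| - Real.sqrt b * |η|)
    have h4 : a * ξ ^ 2 + b * η ^ 2 = Real.sqrt a ^ 2 * |ξ| ^ 2 + Real.sqrt b ^ 2 * |η| ^ 2 := by
      rw [h1, h2, sq_abs, sq_abs]
    rw [h4]
    nlinarith
  have q2 : 2 * Real.sqrt (p * q) * |μ * ν| ≤ p * μ ^ 2 + q * ν ^ 2 := by
    rw [Real.sqrt_mul hp, abs_mul]
    have h1 := Real.sq_sqrt hp
    have h2 := Real.sq_sqrt hq
    have h3 := sq_nonneg (Real.sqrt p * |μ| - Real.sqrt q * |ν|)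
    have h4 : p * μ ^ 2 + q * ν ^ 2 = Real.sqrt p ^ 2 * |μ| ^ 2 + Real.sqrt q ^ 2 * |ν| ^ 2 := by
      rw [h1, h2, sq_abs, sq_abs]
    rw [h4]
    nlinarith
  have e1 : μ * ν = ξ * η := by linarith
  rw [e1] at q2 s8
  have q3 : -((h (x + ξ) (y + η) - h (x + ξ) y - h x (y + η) + h x y)
      + (g (z + μ) (w + ν) - g (z + μ) w - g z (w + ν) + g z w))
      ≤ a * ξ ^ 2 + b * η ^ 2 + (p * μ ^ 2 + q * ν ^ 2) := by
    nlinarith
  have q4 := mul_le_mul_of_nonneg_left q3 tt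
  have e2 : l * ((x + t * ξ) * (y + t * η) - (z + t * μ) * (w + t * ν))
      = (1 - t) * (l * (x * y - z * w)) + t * (l * ((x + ξ) * (y + η) - (z + μ) * (w + ν))) := by
    have : (x + t * ξ) * (y + t * η) - (z + t * μ) * (w + t * ν)
      = (1 - t) * (x * y - z * w) + t * ((x + ξ) * (y + η) - (z + μ) * (w + ν))
        - t * (1 - t) * (ξ * η - μ * ν) := by ring
    rw [this, hd]
    ring
  rw [e2]
  nlinarith

end Pool.Agent.Helper95.MQ
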