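import Pool.Agent.Helper95.MQ.Two

/-!
# The converse: rank-one convexity for functions which are bilinear on the cells of grids
-/

set_option autoImplicit false

open Set Filter Topology Matrix

namespace Pool.Agent.Helper95.MQ

/-- bilinear on the cells of a rectangular grid -/
def GB (h : ℝ → ℝ → ℝ) : Prop :=
  ∃ u v : ℤ → ℝ, StrictMono u ∧ StrictMono v ∧
    (∀ x : ℝ, ∃ i : ℤ, x ∈ Set.Icc (u i) (u (i + 1))) ∧
    (∀ y : ℝ, ∃ j : ℤ, y ∈ Set.Icc (v j) (v (j + 1))) ∧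
    ∀ i j : ℤ, ∃ α β γ δ : ℝ, ∀ x ∈ Set.Icc (u i) (u (i + 1)),
      ∀ y ∈ Set.Icc (v j) (v (j + 1)), h x y = α + β * x + γ * y + δ * (x * y)

/-- The test of rank-one convexity in the middle of a cell. -/
theorem cell_test2 {h g : ℝ → ℝ → ℝ} {a b p q l : ℝ}
    (hroc : Helper188.Morrey.RankOneConvex (En2 h g a b p q l))
    {x0 x1 y0 y1 α β γ δ z0 z1 w0 w1 α' β' γ' δ' : ℝ}
    (hx : x0 < x1) (hy : y0 < y1) (hz : z0 < z1) (hw : w0 < w1)
    (hh : ∀ x ∈ Icc x0 x1, ∀ y ∈ Icc y0 y1, h x y = α + β * x + γ * y + δ * (x * y))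
    (hg : ∀ z ∈ Icc z0 z1, ∀ w ∈ Icc w0 w1, g z w = α' + β' * z + γ' * w + δ' * (z * w))
    (ξ η μ ν : ℝ) (hd : ξ * η = μ * ν) :
    0 ≤ a * ξ ^ 2 + b * η ^ 2 + p * μ ^ 2 + q * ν ^ 2 + (δ + δ') * (ξ * η) := by
  set x := (x0 + x1) / 2 with hxm
  set y := (y0 + y1) / 2 with hym
  set z := (z0 + z1) / 2 with hzm
  set w := (w0 + w1) / 2 with hwm
  have small : ∀ d c : ℝ, 0 < d → ∀ ε : ℝ, 0 < ε → ε ≤ d / (|c| + 1) →
      -d ≤ ε * c ∧ ε * c ≤ d := by
    intro d c hd ε hε h1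
    rw [le_div_iff₀ (by positivity)] at h1
    have h2 := neg_abs_le c
    have h3 := le_abs_self c
    constructor <;> nlinarith
  obtain ⟨ε, hε0, hε1, hε2, hε3, hε4⟩ : ∃ ε : ℝ, 0 < ε ∧ ε ≤ (x1 - x0) / 2 / (|ξ| + 1) ∧
      ε ≤ (y1 - y0) / 2 / (|η| + 1) ∧ ε ≤ (z1 - z0) / 2 / (|μ| + 1) ∧
      ε ≤ (w1 - w0) / 2 / (|ν| + 1) := by
    have k1 : 0 < (x1 - x0) / 2 / (|ξ| + 1) := div_pos (by linarith) (by positivity)
    have k2 : 0 < (y1 - y0) / 2 / (|η| + 1) := div_pos (by linarith) (by positivity)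
    have k3 : 0 < (z1 - z0) / 2 / (|μ| + 1) := div_pos (by linarith) (by positivity)
    have k4 : 0 < (w1 - w0) / 2 / (|ν| + 1) := div_pos (by linarith) (by positivity)
    exact ⟨min (min ((x1 - x0) / 2 / (|ξ| + 1)) ((y1 - y0) / 2 / (|η| + 1)))
      (min ((z1 - z0) / 2 / (|μ| + 1)) ((w1 - w0) / 2 / (|ν| + 1))),
      lt_min (lt_min k1 k2) (lt_min k3 k4),
      (min_le_left _ _).trans (min_le_left _ _), (min_le_left _ _).trans (min_le_right _ _),
      (min_le_right _ _).trans (min_le_left _ _), (min_le_right _ _).trans (min_le_right _ _)⟩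
  obtain ⟨bx1, bx2⟩ := small ((x1 - x0) / 2) ξ (by linarith) ε hε0 hε1
  obtain ⟨by1, by2⟩ := small ((y1 - y0) / 2) η (by linarith) ε hε0 hε2
  obtain ⟨bz1, bz2⟩ := small ((z1 - z0) / 2) μ (by linarith) ε hε0 hε3
  obtain ⟨bw1, bw2⟩ := small ((w1 - w0) / 2) ν (by linarith) ε hε0 hε4
  have hl := hroc.line !![x, z; w, y] !![ξ, μ; ν, η] (by
    rw [Matrix.det_fin_two_of]; linarith)
  have h1 := hl.2 (mem_univ (-ε)) (mem_univ ε) (show (0 : ℝ) ≤ 1 / 2 by norm_num)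
    (show (0 : ℝ) ≤ 1 / 2 by norm_num) (by norm_num)
  have e0 : (1 / 2 : ℝ) • (-ε) + (1 / 2 : ℝ) • ε = 0 := by
    simp only [smul_eq_mul]; ring
  have em : ∀ s : ℝ, (!![x, z; w, y] : Matrix (Fin 2) (Fin 2) ℝ) + s • !![ξ, μ; ν, η]
      = !![x + s * ξ, z + s * μ; w + s * ν, y + s * η] := by
    intro s
    ext i j
    fin_cases i <;> fin_cases j <;> simp
  rw [e0] at h1
  simp only [em, En2_mat, smul_eq_mul, zero_mul, add_zero] at h1
  rw [hh x ⟨by linarith, by linarith⟩ y ⟨by linarith, by linarith⟩,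
    hh (x + -ε * ξ) ⟨by linarith, by linarith⟩ (y + -ε * η) ⟨by linarith, by linarith⟩,
    hh (x + ε * ξ) ⟨by linarith, by linarith⟩ (y + ε * η) ⟨by linarith, by linarith⟩,
    hg z ⟨by linarith, by linarith⟩ w ⟨by linarith, by linarith⟩,
    hg (z + -ε * μ) ⟨by linarith, by linarith⟩ (w + -ε * ν) ⟨by linarith, by linarith⟩,
    hg (z + ε * μ) ⟨by linarith, by linarith⟩ (w + ε * ν) ⟨by linarith, by linarith⟩] at h1
  have h2 : 0 ≤ ε ^ 2 * (a * ξ ^ 2 + b * η ^ 2 + p * μ ^ 2 + q * ν ^ 2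
      + (δ + δ') * (ξ * η)) := by
    have e3 : ε ^ 2 * ((l - δ') * (ξ * η)) = ε ^ 2 * ((l - δ') * (μ * ν)) := by rw [hd]
    nlinarith
  exact nonneg_of_mul_nonneg_right h2 (by positivity)

/-- the bound of the mixed differences from the cells -/
theorem grid_mixed {h : ℝ → ℝ → ℝ} {u v : ℤ → ℝ} (hu : StrictMono u)
    (hv : StrictMono v) (hcu : ∀ x : ℝ, ∃ i : ℤ, x ∈ Icc (u i) (u (i + 1)))
    (hcv : ∀ y : ℝ, ∃ j : ℤ, y ∈ Icc (v j) (v (j + 1))) {α β γ δ : ℤ → ℤ → ℝ}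
    (hh : ∀ i j : ℤ, ∀ x ∈ Icc (u i) (u (i + 1)), ∀ y ∈ Icc (v j) (v (j + 1)),
      h x y = α i j + β i j * x + γ i j * y + δ i j * (x * y)) {σ M : ℝ} (hM0 : 0 ≤ M)
    (hb : ∀ i j, |δ i j - σ| ≤ M) : Mixed σ M h := by
  -- one variable in a cell
  have s1 : ∀ i : ℤ, ∀ x ∈ Icc (u i) (u (i + 1)), ∀ x' ∈ Icc (u i) (u (i + 1)),
      ∀ y y' : ℝ, |(h x' y' - h x y' - σ * ((x' - x) * y')) - (h x' y - h x y
        - σ * ((x' - x) * y))| ≤ (M * |x' - x|) * |y' - y| := by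
    intro i x hx x' hx' y y'
    refine lip_of_pw hv hcv (φ := fun y => h x' y - h x y - σ * ((x' - x) * y))
      (K := M * |x' - x|) ?_ y y'
    intro j y hy y' hy'
    rw [hh i j x' hx' y' hy', hh i j x hx y' hy', hh i j x' hx' y hy, hh i j x hx y hy]
    have e : α i j + β i j * x' + γ i j * y' + δ i j * (x' * y')
        - (α i j + β i j * x + γ i j * y' + δ i j * (x * y')) - σ * ((x' - x) * y')
        - (α i j + β i j * x' + γ i j * y + δ i j * (x' * y)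
          - (α i j + β i j * x + γ i j * y + δ i j * (x * y)) - σ * ((x' - x) * y))
        = (δ i j - σ) * ((x' - x) * (y' - y)) := by ring
    rw [e, abs_mul, abs_mul, ← mul_assoc]
    have h1 := hb i j
    gcongr
  intro x y s t
  have s2 := lip_of_pw hu hcu (φ := fun x => h x (y + t) - h x y - σ * (x * t)) (K := M * |t|) (by
    intro i x hx x' hx'
    have h1 := s1 i x hx x' hx' y (y + t)
    have e : h x' (y + t) - h x' y - σ * (x' * t) - (h x (y + t) - h x y - σ * (x * t))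
        = (h x' (y + t) - h x (y + t) - σ * ((x' - x) * (y + t)))
          - (h x' y - h x y - σ * ((x' - x) * y)) := by ring
    rw [e]
    refine h1.trans (le_of_eq ?_)
    rw [add_sub_cancel_left]
    ring) x (x + s)
  have e : h (x + s) (y + t) - h (x + s) y - h x (y + t) + h x y - σ * (s * t)
      = h (x + s) (y + t) - h (x + s) y - σ * ((x + s) * t)
        - (h x (y + t) - h x y - σ * (x * t)) := by ring
  rw [e]
  refine s2.trans (le_of_eq ?_)
  rw [add_sub_cancel_left, abs_mul]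
  ring

/-- the bound of the coefficients of the cells from the mixed differences -/
theorem cell_mixed {h : ℝ → ℝ → ℝ} {x0 x1 y0 y1 α β γ δ σ M : ℝ} (hx : x0 < x1) (hy : y0 < y1)
    (hh : ∀ x ∈ Icc x0 x1, ∀ y ∈ Icc y0 y1, h x y = α + β * x + γ * y + δ * (x * y))
    (hm : Mixed σ M h) : |δ - σ| ≤ M := by
  have h1 := hm x0 y0 (x1 - x0) (y1 - y0)
  rw [add_sub_cancel, add_sub_cancel, hh x1 ⟨hx.le, le_rfl⟩ y1 ⟨hy.le, le_rfl⟩,
    hh x1 ⟨hx.le, le_rfl⟩ y0 ⟨le_rfl, hy.le⟩, hh x0 ⟨le_rfl, hx.le⟩ y1 ⟨hy.le, le_rfl⟩,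
    hh x0 ⟨le_rfl, hx.le⟩ y0 ⟨le_rfl, hy.le⟩] at h1
  have e : α + β * x1 + γ * y1 + δ * (x1 * y1) - (α + β * x1 + γ * y0 + δ * (x1 * y0))
      - (α + β * x0 + γ * y1 + δ * (x0 * y1)) + (α + β * x0 + γ * y0 + δ * (x0 * y0))
      - σ * ((x1 - x0) * (y1 - y0)) = (δ - σ) * ((x1 - x0) * (y1 - y0)) := by ring
  have hpos : 0 < |(x1 - x0) * (y1 - y0)| :=
    abs_pos.2 (mul_pos (by linarith) (by linarith)).ne'
  rw [e, abs_mul] at h1
  exact le_of_mul_le_mul_right h1 hpos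

/-- The rank-one convexity of the energy of functions which are bilinear on the cells of grids. -/
theorem grid_roc2 {h g : ℝ → ℝ → ℝ} {a b p q l : ℝ} (hGh : GB h) (hGg : GB g)
    (hroc : Helper188.Morrey.RankOneConvex (En2 h g a b p q l)) :
    0 ≤ a ∧ 0 ≤ b ∧ 0 ≤ p ∧ 0 ≤ q ∧ Sep h ∧ Sep g ∧
      ∃ σ r : ℝ, Mixed σ r g ∧
        Mixed (-σ) (2 * (Real.sqrt (a * b) + Real.sqrt (p * q)) - r) h ∧
        ∀ σ' r' : ℝ, Mixed σ' r' g → r ≤ r' := by
  obtain ⟨u, v, hu, hv, hcu, hcv, hh⟩ := hGh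
  obtain ⟨u', v', hu', hv', hcu', hcv', hg⟩ := hGg
  choose α β γ δ hh using hh
  choose α' β' γ' δ' hg using hg
  set T := 2 * (Real.sqrt (a * b) + Real.sqrt (p * q)) with hT
  have hb : ∀ i j k m, 0 ≤ a ∧ 0 ≤ b ∧ 0 ≤ p ∧ 0 ≤ q ∧ |δ i j + δ' k m| ≤ T := fun i j k m =>
    cell_bound fun ξ η μ ν hd => cell_test2 hroc (hu (by omega : i < i + 1))
      (hv (by omega : j < j + 1)) (hu' (by omega : k < k + 1)) (hv' (by omega : m < m + 1))
      (hh i j) (hg k m) ξ η μ ν hd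
  have hbb : ∀ i j k m, -T ≤ δ i j + δ' k m ∧ δ i j + δ' k m ≤ T := fun i j k m =>
    abs_le.1 (hb i j k m).2.2.2.2
  obtain ⟨ha, hb', hp, hq, -⟩ := hb 0 0 0 0
  refine ⟨ha, hb', hp, hq, ⟨?_, ?_⟩, ⟨?_, ?_⟩, ?_⟩
  · intro y
    obtain ⟨j, hj⟩ := hcv y
    have hf : ∀ i : ℤ, ∀ x ∈ Icc (u i) (u (i + 1)),
        h x y = (α i j + γ i j * y) + (β i j + δ i j * y) * x := by
      intro i x hx
      rw [hh i j x hx y hj]
      ring
    refine convex_of_pw hu hcu hf (slopes hu hf (κ := a) ?_)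
    have hl := hroc.line !![0, 0; 0, y] !![1, 0; 0, 0] (by simp [Matrix.det_fin_two])
    have em : ∀ s : ℝ, (!![0, 0; 0, y] : Matrix (Fin 2) (Fin 2) ℝ) + s • !![1, 0; 0, 0]
        = !![s, 0; 0, y] := by
      intro s
      ext i j
      fin_cases i <;> fin_cases j <;> simp
    simp only [em, En2_mat] at hl
    refine ⟨convex_univ, fun s _ t _ c d hc hd hcd => ?_⟩
    have h1 := hl.2 (mem_univ s) (mem_univ t) hc hd hcd
    simp only [smul_eq_mul] at h1 ⊢
    have hc' : c = 1 - d := by linarith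
    rw [hc'] at h1 ⊢
    nlinarith
  · intro x
    obtain ⟨i, hi⟩ := hcu x
    have hf : ∀ j : ℤ, ∀ y ∈ Icc (v j) (v (j + 1)),
        h x y = (α i j + β i j * x) + (γ i j + δ i j * x) * y := by
      intro j y hy
      rw [hh i j x hi y hy]
      ring
    refine convex_of_pw hv hcv hf (slopes hv hf (κ := b) ?_)
    have hl := hroc.line !![x, 0; 0, 0] !![0, 0; 0, 1] (by simp [Matrix.det_fin_two])
    have em : ∀ s : ℝ, (!![x, 0; 0, 0] : Matrix (Fin 2) (Fin 2) ℝ) + s • !![0, 0; 0, 1]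
        = !![x, 0; 0, s] := by
      intro s
      ext i j
      fin_cases i <;> fin_cases j <;> simp
    simp only [em, En2_mat] at hl
    refine ⟨convex_univ, fun s _ t _ c d hc hd hcd => ?_⟩
    have h1 := hl.2 (mem_univ s) (mem_univ t) hc hd hcd
    simp only [smul_eq_mul] at h1 ⊢
    have hc' : c = 1 - d := by linarith
    rw [hc'] at h1 ⊢
    nlinarith
  · intro y
    obtain ⟨j, hj⟩ := hcv' y
    have hf : ∀ i : ℤ, ∀ x ∈ Icc (u' i) (u' (i + 1)),
        g x y = (α' i j + γ' i j * y) + (β' i j + δ' i j * y) * x := by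
      intro i x hx
      rw [hg i j x hx y hj]
      ring
    refine convex_of_pw hu' hcu' hf (slopes hu' hf (κ := p) ?_)
    have hl := hroc.line !![0, 0; y, 0] !![0, 1; 0, 0] (by simp [Matrix.det_fin_two])
    have em : ∀ s : ℝ, (!![0, 0; y, 0] : Matrix (Fin 2) (Fin 2) ℝ) + s • !![0, 1; 0, 0]
        = !![0, s; y, 0] := by
      intro s
      ext i j
      fin_cases i <;> fin_cases j <;> simp
    simp only [em, En2_mat] at hl
    refine ⟨convex_univ, fun s _ t _ c d hc hd hcd => ?_⟩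
    have h1 := hl.2 (mem_univ s) (mem_univ t) hc hd hcd
    simp only [smul_eq_mul] at h1 ⊢
    have hc' : c = 1 - d := by linarith
    rw [hc'] at h1 ⊢
    nlinarith
  · intro x
    obtain ⟨i, hi⟩ := hcu' x
    have hf : ∀ j : ℤ, ∀ y ∈ Icc (v' j) (v' (j + 1)),
        g x y = (α' i j + β' i j * x) + (γ' i j + δ' i j * x) * y := by
      intro j y hy
      rw [hg i j x hi y hy]
      ring
    refine convex_of_pw hv' hcv' hf (slopes hv' hf (κ := q) ?_)
    have hl := hroc.line !![0, x; 0, 0] !![0, 0; 1, 0] (by simp [Matrix.det_fin_two])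
    have em : ∀ s : ℝ, (!![0, x; 0, 0] : Matrix (Fin 2) (Fin 2) ℝ) + s • !![0, 0; 1, 0]
        = !![0, x; s, 0] := by
      intro s
      ext i j
      fin_cases i <;> fin_cases j <;> simp
    simp only [em, En2_mat] at hl
    refine ⟨convex_univ, fun s _ t _ c d hc hd hcd => ?_⟩
    have h1 := hl.2 (mem_univ s) (mem_univ t) hc hd hcd
    simp only [smul_eq_mul] at h1 ⊢
    have hc' : c = 1 - d := by linarith
    rw [hc'] at h1 ⊢
    nlinarith
  · -- the supremum and the infimum of the mixed coefficients of `g`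
    set S : ℝ := ⨆ z : ℤ × ℤ, δ' z.1 z.2 with hS
    set I : ℝ := ⨅ z : ℤ × ℤ, δ' z.1 z.2 with hI
    have bA : BddAbove (range fun z : ℤ × ℤ => δ' z.1 z.2) := by
      refine ⟨T - δ 0 0, ?_⟩
      rintro _ ⟨z, rfl⟩
      have := (hbb 0 0 z.1 z.2).2
      simp only
      linarith
    have bB : BddBelow (range fun z : ℤ × ℤ => δ' z.1 z.2) := by
      refine ⟨-T - δ 0 0, ?_⟩
      rintro _ ⟨z, rfl⟩
      have := (hbb 0 0 z.1 z.2).1
      simp only
      linarith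
    have dS : ∀ k m, δ' k m ≤ S := fun k m => le_ciSup bA (k, m)
    have dI : ∀ k m, I ≤ δ' k m := fun k m => ciInf_le bB (k, m)
    have hSle : ∀ c : ℝ, (∀ k m, δ' k m ≤ c) → S ≤ c := fun c hc => ciSup_le fun z => hc _ _
    have hIge : ∀ c : ℝ, (∀ k m, c ≤ δ' k m) → c ≤ I := fun c hc => le_ciInf fun z => hc _ _
    have hr0 : 0 ≤ (S - I) / 2 := by
      have h1 := dS 0 0
      have h2 := dI 0 0
      linarith
    have hTr : ∀ i j, |δ i j - -((S + I) / 2)| ≤ T - (S - I) / 2 := by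
      intro i j
      have h1 := hSle (T - δ i j) (fun k m => by have := (hbb i j k m).2; linarith)
      have h2 := hIge (-T - δ i j) (fun k m => by have := (hbb i j k m).1; linarith)
      rw [abs_le]
      constructor <;> linarith
    refine ⟨(S + I) / 2, (S - I) / 2, ?_, ?_, ?_⟩
    · refine grid_mixed hu' hv' hcu' hcv' hg hr0 fun i j => ?_
      have h1 := dS i j
      have h2 := dI i j
      rw [abs_le]
      constructor <;> linarith
    · exact grid_mixed hu hv hcu hcv hh ((abs_nonneg _).trans (hTr 0 0)) hTr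
    · intro σ' r' hm
      have hc : ∀ k m, -r' ≤ δ' k m - σ' ∧ δ' k m - σ' ≤ r' := fun k m =>
        abs_le.1 (cell_mixed (hu' (by omega : k < k + 1)) (hv' (by omega : m < m + 1))
          (hg k m) hm)
      have h1 := hSle (σ' + r') (fun k m => by have := (hc k m).2; linarith)
      have h2 := hIge (σ' - r') (fun k m => by have := (hc k m).1; linarith)
      linarith

/-- **Rank-one convexity implies quasiconvexity for the energies with two functions.** -/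
theorem two_main {h g : ℝ → ℝ → ℝ} {a b p q l : ℝ} (hGh : GB h) (hGg : GB g)
    (hle : p * q ≤ a * b) (hor : p * q = a * b ∨ ∃ σ, Mixed σ (4 * Real.sqrt (p * q)) g)
    (hroc : Helper188.Morrey.RankOneConvex (En2 h g a b p q l)) :
    Pool.Agent.N555.MQ.QC (En2 h g a b p q l) := by
  obtain ⟨ha, hb, hp, hq, hsh, hsg, σ, r, hmg, hmh, hmin⟩ := grid_roc2 hGh hGg hroc
  refine fin_two l ha hb hp hq hle hsh hsg ?_ hmg hmh
  rcases hor with h1 | ⟨σ', h1⟩
  · have h2 := hmh.nonneg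
    rw [← h1] at h2
    linarith
  · exact hmin σ' _ h1

end Pool.Agent.Helper95.MQ
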